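import Mathlib

/-!
[H14 L2 AR]  The final arithmetic of the law (L2).
-/

namespace Pool.Agent.H14.L2

/-- the final arithmetic -/
theorem fin_arith (SG SV SW LA Err D X m LJ1 LJ XG L phi V1 W V pr G G' sv e d C0 : ℝ)
    (hD : D = m / W * V) (hD0 : 0 < D) (hm : 0 < m) (hW : 0 < W) (hV : 0 < V) (hL : 0 < L)
    (hLJ : 0 < LJ) (hLJ1 : LJ1 = LJ * L) (hphi : 0 < phi) (he0 : 0 < e) (he1 : e ≤ 1 / 10)
    (hd0 : 0 ≤ d) (hd1 : d ≤ 1)
    (h1 : |SG - SV / LJ1| ≤ 2 * e * (SV / LJ1) + 2 * (SW / LA) + 1)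
    (h2 : |SV - X / phi * V1 * G'| ≤ d * (X / phi * V1) * G' + Err)
    (h3 : (1 - e) * (LJ * XG) ≤ X) (h3' : X ≤ (1 + e) * (LJ * XG)) (h4 : m ≤ XG)
    (h4' : XG ≤ m * (1 + e))
    (h5 : 1 / (L * phi) * V1 = pr * (1 / W * V)) (h6 : G ≤ G') (h6' : G' ≤ (1 + e) * G)
    (h7 : |G - sv| ≤ e) (hsv0 : 0 ≤ sv) (hsv1 : sv ≤ 1) (hpr0 : 0 < pr) (hpr : pr ≤ C0)
    (h8 : Err / LJ1 ≤ e * D) (h9 : SW / LA ≤ e * D) (h10 : 1 ≤ e * D) :
    |SG / D - sv * pr| ≤ 2 * C0 * d + e * (14 * C0 + 6) := by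
  have hC0 : 0 < C0 := lt_of_lt_of_le hpr0 hpr
  have hLJ10 : 0 < LJ1 := by rw [hLJ1]; positivity
  have h7' := abs_le.1 h7
  have hG0 : -e ≤ G := by linarith [h7'.1]
  have hG1 : G ≤ 1 + e := by linarith [h7'.2]
  -- normalised main term
  obtain ⟨ρ, hρ⟩ : ∃ ρ, ρ = X / (LJ * m) := ⟨_, rfl⟩
  have hρX : X = ρ * (LJ * m) := by
    rw [hρ, div_mul_cancel₀]
    positivity
  have hLm : 0 < LJ * m := by positivity
  have hρ1 : 1 - e ≤ ρ := by
    rw [hρ, le_div_iff₀ hLm]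
    refine le_trans ?_ h3
    exact mul_le_mul_of_nonneg_left (mul_le_mul_of_nonneg_left h4 hLJ.le) (by linarith)
  have hρ2 : ρ ≤ (1 + e) * (1 + e) := by
    rw [hρ, div_le_iff₀ hLm]
    refine h3'.trans ?_
    calc (1 + e) * (LJ * XG) ≤ (1 + e) * (LJ * (m * (1 + e))) :=
          mul_le_mul_of_nonneg_left (mul_le_mul_of_nonneg_left h4' hLJ.le) (by linarith)
      _ = _ := by ring
  have hρ0 : 0 < ρ := by linarith
  have hmain : X / phi * V1 / LJ1 = ρ * pr * D := by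
    have e1 : X / phi * V1 / LJ1 = (X / LJ) * (1 / (L * phi) * V1) := by
      rw [hLJ1]
      field_simp
    rw [e1, h5, hρX, hD]
    field_simp
  -- t = SV / (LJ1 D)
  obtain ⟨t, ht⟩ : ∃ t, t = SV / LJ1 / D := ⟨_, rfl⟩
  have htS : SV / LJ1 = t * D := by rw [ht, div_mul_cancel₀ _ hD0.ne']
  have h2a : |SV / LJ1 - ρ * pr * D * G'| ≤ d * (ρ * pr * D) * G' + e * D := by
    have e1 : SV / LJ1 - ρ * pr * D * G' = (SV - X / phi * V1 * G') / LJ1 := by
      rw [← hmain]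
      ring
    rw [e1, abs_div, abs_of_pos hLJ10]
    refine (div_le_div_of_nonneg_right h2 hLJ10.le).trans ?_
    rw [add_div]
    have e2 : d * (X / phi * V1) * G' / LJ1 = d * (ρ * pr * D) * G' := by
      rw [← hmain]
      ring
    rw [e2]
    linarith
  have h2b : |t - ρ * pr * G'| ≤ d * (ρ * pr) * G' + e := by
    have e1 : t - ρ * pr * G' = (SV / LJ1 - ρ * pr * D * G') / D := by
      rw [htS]
      field_simp
    rw [e1, abs_div, abs_of_pos hD0, div_le_iff₀ hD0]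
    refine h2a.trans (le_of_eq ?_)
    ring
  obtain ⟨s, hs⟩ : ∃ s, s = SG / D := ⟨_, rfl⟩
  have h1b : |s - t| ≤ 2 * e * t + 3 * e := by
    have e1 : s - t = (SG - SV / LJ1) / D := by
      rw [htS, hs]
      field_simp
    rw [e1, abs_div, abs_of_pos hD0, div_le_iff₀ hD0]
    refine h1.trans ?_
    rw [htS]
    have e2 : (2 * e * t + 3 * e) * D = 2 * e * (t * D) + 2 * (e * D) + e * D := by ring
    rw [e2]
    linarith
  -- bounds
  have hG'0 : 0 ≤ G' := by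
    by_contra hneg
    push Not at hneg
    have h20 : e * G < 0 := mul_neg_of_pos_of_neg he0 (by linarith)
    linarith
  have hG'1 : G' ≤ (1 + e) * (1 + e) := h6'.trans (mul_le_mul_of_nonneg_left hG1 (by linarith))
  have he2 : (1 + e) * (1 + e) ≤ 121 / 100 := by nlinarith
  have hG'2 : G' ≤ 121 / 100 := hG'1.trans he2
  have hρ3 : ρ ≤ 121 / 100 := hρ2.trans he2
  have hρp : ρ * pr ≤ 121 / 100 * C0 := mul_le_mul hρ3 hpr hpr0.le (by norm_num)
  have hmt : ρ * pr * G' ≤ 2 * C0 := by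
    calc ρ * pr * G' ≤ (121 / 100 * C0) * (121 / 100) :=
          mul_le_mul hρp hG'2 hG'0 (by positivity)
      _ ≤ 2 * C0 := by nlinarith
  have hmt0 : 0 ≤ ρ * pr * G' := by positivity
  have h11 : |ρ * pr * G' - sv * pr| ≤ 6 * C0 * e := by
    have e1 : ρ * pr * G' - sv * pr = pr * ((ρ - 1) * G' + (G' - sv)) := by ring
    rw [e1, abs_mul, abs_of_pos hpr0]
    have e2 : |(ρ - 1) * G' + (G' - sv)| ≤ 6 * e := by
      rw [abs_le]
      have f1 : (ρ - 1) * G' ≤ (21 / 10 * e) * (121 / 100) := by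
        have f2 : ρ - 1 ≤ 21 / 10 * e := by nlinarith
        calc (ρ - 1) * G' ≤ (21 / 10 * e) * G' := mul_le_mul_of_nonneg_right f2 hG'0
          _ ≤ _ := mul_le_mul_of_nonneg_left hG'2 (by positivity)
      have f3 : -(e * (121 / 100)) ≤ (ρ - 1) * G' := by
        have f2 : -e ≤ ρ - 1 := by linarith
        have f4 : -e * G' ≤ (ρ - 1) * G' := mul_le_mul_of_nonneg_right f2 hG'0
        have f5 : e * G' ≤ e * (121 / 100) := mul_le_mul_of_nonneg_left hG'2 he0.le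
        linarith
      have f6 : G' - sv ≤ 2 * e + e * e := by nlinarith
      have f7 : -e ≤ G' - sv := by linarith [h7'.1]
      constructor
      · nlinarith
      · nlinarith
    calc pr * |(ρ - 1) * G' + (G' - sv)| ≤ C0 * (6 * e) :=
          mul_le_mul hpr e2 (abs_nonneg _) hC0.le
      _ = 6 * C0 * e := by ring
  have h12 : d * (ρ * pr) * G' ≤ d * (2 * C0) := by
    calc d * (ρ * pr) * G' = d * (ρ * pr * G') := by ring
      _ ≤ d * (2 * C0) := mul_le_mul_of_nonneg_left hmt hd0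
  have h13 : t ≤ 4 * C0 + e := by
    have := (abs_le.1 h2b).2
    have h14 : d * (2 * C0) ≤ 1 * (2 * C0) := mul_le_mul_of_nonneg_right hd1 (by positivity)
    linarith
  have h15 : 2 * e * t ≤ 2 * e * (4 * C0 + e) := mul_le_mul_of_nonneg_left h13 (by positivity)
  rw [← hs]
  have h16 : s - sv * pr = (s - t) + (t - ρ * pr * G') + (ρ * pr * G' - sv * pr) := by ring
  rw [h16]
  have h17 := abs_add_three (s - t) (t - ρ * pr * G') (ρ * pr * G' - sv * pr)
  have h18 : 2 * e * (4 * C0 + e) ≤ 8 * C0 * e + e := by nlinarith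
  nlinarith

end Pool.Agent.H14.L2
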