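import Pool.Agent.H14.L2.Up
import Pool.Agent.H75.AP.MertensB

/-!
[H14 L2 ER]  The error sum: divisor weights and the Cauchy-Schwarz inequality.
-/

namespace Pool.Agent.H14.L2

open Finset

/-- the squarefree numbers up to `U` -/
noncomputable def SF (U : ℝ) : Finset ℕ := (Icc 1 ⌊U⌋₊).filter Squarefree

theorem mem_SF {U : ℝ} {n : ℕ} : n ∈ SF U ↔ Squarefree n ∧ (n : ℝ) ≤ U := by
  unfold SF
  rw [Finset.mem_filter, Finset.mem_Icc]
  constructor
  · rintro ⟨⟨h1, h2⟩, h3⟩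
    have hU : 0 < ⌊U⌋₊ := by omega
    exact ⟨h3, (Nat.le_floor_iff (by
      by_contra hneg
      push Not at hneg
      rw [Nat.floor_of_nonpos hneg.le] at hU
      exact lt_irrefl _ hU)).1 h2⟩
  · rintro ⟨h1, h2⟩
    have h3 : 0 < n := Nat.pos_of_ne_zero h1.ne_zero
    exact ⟨⟨h3, Nat.le_floor h2⟩, h1⟩

theorem sqf_prod (S : Finset ℕ) (hS : ∀ p ∈ S, p.Prime) : Squarefree (∏ p ∈ S, p) := by
  induction S using Finset.induction_on with
  | empty => simp
  | insert p S hpS ih =>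
    have hp : p.Prime := hS p (Finset.mem_insert_self _ _)
    have hS' : ∀ r ∈ S, r.Prime := fun r hr => hS r (Finset.mem_insert_of_mem hr)
    have hco : Nat.Coprime p (∏ r ∈ S, r) := prod_cop p S fun r hr =>
      ⟨hS' r hr, fun h => hpS (((Nat.prime_dvd_prime_iff_eq (hS' r hr) hp).1 h) ▸ hr)⟩
    rw [Finset.prod_insert hpS, Nat.squarefree_mul hco]
    exact ⟨hp.squarefree, ih hS'⟩

theorem sf_sum : ∃ C : ℝ, 1 ≤ C ∧ ∀ (D : ℕ) (U : ℝ), 3 ≤ U →
    ∑ n ∈ SF U, (D : ℝ) ^ n.primeFactors.card / n.totient ≤ (C * Real.log U) ^ (2 * D) := by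
  obtain ⟨C0, hC0, hM⟩ := Pool.Agent.H75.AP.mertens_upper
  refine ⟨Real.exp C0, Real.one_le_exp hC0.le, fun D U hU => ?_⟩
  have hU0 : 0 ≤ U := by linarith
  have hlog : 1 ≤ Real.log U := by
    rw [Real.le_log_iff_exp_le (by linarith)]
    linarith [Real.exp_one_lt_d9]
  set PU := Pool.Agent.H75.AP.PI 0 U with hPU
  have hmem : ∀ p, p ∈ PU ↔ p.Prime ∧ (0 : ℝ) < p ∧ (p : ℝ) ≤ U := fun p =>
    Pool.Agent.H75.AP.MertB.mem_PI le_rfl
  have h1 : ∑ n ∈ SF U, (D : ℝ) ^ n.primeFactors.card / n.totient =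
      ∑ n ∈ SF U, ∏ p ∈ n.primeFactors, (D : ℝ) / ((p : ℝ) - 1) := by
    refine Finset.sum_congr rfl fun n hn => ?_
    have hn1 := (mem_SF.1 hn).1
    have h2 : (n.totient : ℝ) = ∏ p ∈ n.primeFactors, ((p : ℝ) - 1) := by
      rw [← prod_totient n.primeFactors (fun p hp => Nat.prime_of_mem_primeFactors hp),
        Nat.prod_primeFactors_of_squarefree hn1]
    rw [h2, Finset.prod_div_distrib, Finset.prod_const]
  rw [h1]
  have h2 : ∑ n ∈ SF U, ∏ p ∈ n.primeFactors, (D : ℝ) / ((p : ℝ) - 1) ≤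
      ∑ S ∈ PU.powerset, ∏ p ∈ S, (D : ℝ) / ((p : ℝ) - 1) := by
    rw [← Finset.sum_image (f := fun S : Finset ℕ => ∏ p ∈ S, (D : ℝ) / ((p : ℝ) - 1))
      (g := fun n : ℕ => n.primeFactors) (s := SF U)]
    · refine Finset.sum_le_sum_of_subset_of_nonneg ?_ ?_
      · intro S hS
        obtain ⟨n, hn, rfl⟩ := Finset.mem_image.1 hS
        rw [Finset.mem_powerset]
        intro p hp
        have hn1 := mem_SF.1 hn
        have hpp := Nat.prime_of_mem_primeFactors hp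
        have hle : p ≤ n := Nat.le_of_mem_primeFactors hp
        rw [hmem]
        refine ⟨hpp, by exact_mod_cast hpp.pos, ?_⟩
        have : (p : ℝ) ≤ n := by exact_mod_cast hle
        linarith [hn1.2]
      · intro S hS _
        rw [Finset.mem_powerset] at hS
        refine Finset.prod_nonneg fun p hp => ?_
        have := ((hmem p).1 (hS hp)).1.two_le
        have h3 : (2 : ℝ) ≤ p := by exact_mod_cast this
        exact div_nonneg (Nat.cast_nonneg _) (by linarith)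
    · intro m hm n hn hmn
      have hm1 := (mem_SF.1 hm).1
      have hn1 := (mem_SF.1 hn).1
      simp only at hmn
      rw [← Nat.prod_primeFactors_of_squarefree hm1, ← Nat.prod_primeFactors_of_squarefree hn1, hmn]
  refine h2.trans ?_
  have h3 : ∑ S ∈ PU.powerset, ∏ p ∈ S, (D : ℝ) / ((p : ℝ) - 1) =
      ∏ p ∈ PU, (1 + (D : ℝ) / ((p : ℝ) - 1)) := by
    rw [Finset.prod_one_add]
  rw [h3]
  have h4 : ∏ p ∈ PU, (1 + (D : ℝ) / ((p : ℝ) - 1)) ≤
      ∏ p ∈ PU, Real.exp (2 * D * (1 / (p : ℝ))) := by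
    refine Finset.prod_le_prod (fun p hp => ?_) (fun p hp => ?_)
    · have := ((hmem p).1 hp).1.two_le
      have h5 : (2 : ℝ) ≤ p := by exact_mod_cast this
      have h6 : (0 : ℝ) ≤ (D : ℝ) / ((p : ℝ) - 1) := div_nonneg (Nat.cast_nonneg _) (by linarith)
      linarith
    · have := ((hmem p).1 hp).1.two_le
      have h5 : (2 : ℝ) ≤ p := by exact_mod_cast this
      have h6 : (D : ℝ) / ((p : ℝ) - 1) ≤ 2 * D * (1 / (p : ℝ)) := by
        rw [div_le_iff₀ (by linarith)]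
        have h7 : 2 * (D : ℝ) * (1 / p) * (p - 1) = D * (2 * ((p - 1) / p)) := by ring
        rw [h7]
        have h8 : 1 ≤ 2 * (((p : ℝ) - 1) / p) := by
          rw [← mul_div_assoc, le_div_iff₀ (by linarith)]
          linarith
        have h9 : (0 : ℝ) ≤ D := Nat.cast_nonneg _
        nlinarith
      have h7 := Real.add_one_le_exp (2 * (D : ℝ) * (1 / (p : ℝ)))
      linarith
  refine h4.trans ?_
  rw [← Real.exp_sum, ← Finset.mul_sum]
  have h5 := hM U hU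
  have h6 : 2 * (D : ℝ) * ∑ p ∈ PU, 1 / (p : ℝ) ≤
      ((2 * D : ℕ) : ℝ) * (C0 + Real.log (Real.log U)) := by
    push_cast
    have h7 : (0 : ℝ) ≤ 2 * D := by positivity
    nlinarith [mul_le_mul_of_nonneg_left h5 h7]
  refine (Real.exp_le_exp.2 h6).trans (le_of_eq ?_)
  rw [Real.exp_nat_mul, Real.exp_add, Real.exp_log (by linarith)]

theorem cs_sum (W : ℕ) (hW : 0 < W) (B : ℕ) (U Q T0 S0 : ℝ) (E : ℕ → ℝ) (hE0 : ∀ q, 0 ≤ E q)
    (hT0 : 0 ≤ T0) (hQ : W * U ≤ Q)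
    (htriv : ∀ q : ℕ, 1 ≤ q → (q : ℝ) ≤ Q → E q ≤ T0 / q.totient)
    (hsum : ∑ q ∈ Icc 1 ⌊Q⌋₊, E q ≤ S0) :
    ∑ n ∈ SF U, (B : ℝ) ^ n.primeFactors.card * E (W * n) ≤
      Real.sqrt (T0 * S0) *
        Real.sqrt (∑ n ∈ SF U, ((B ^ 2 : ℕ) : ℝ) ^ n.primeFactors.card / n.totient) := by
  have hWn : ∀ n ∈ SF U, ((W * n : ℕ) : ℝ) ≤ Q := by
    intro n hn
    have h1 := (mem_SF.1 hn).2
    push_cast
    exact (mul_le_mul_of_nonneg_left h1 (Nat.cast_nonneg _)).trans hQ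
  have hn0 : ∀ n ∈ SF U, 0 < n := fun n hn => Nat.pos_of_ne_zero (mem_SF.1 hn).1.ne_zero
  have h1 : ∑ n ∈ SF U, (B : ℝ) ^ n.primeFactors.card * E (W * n) =
      ∑ n ∈ SF U, Real.sqrt (((B ^ 2 : ℕ) : ℝ) ^ n.primeFactors.card * E (W * n)) *
        Real.sqrt (E (W * n)) := by
    refine Finset.sum_congr rfl fun n _ => ?_
    rw [← Real.sqrt_mul (by have := hE0 (W * n); positivity)]
    have h2 : ((B ^ 2 : ℕ) : ℝ) ^ n.primeFactors.card * E (W * n) * E (W * n) =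
        ((B : ℝ) ^ n.primeFactors.card * E (W * n)) ^ 2 := by
      push_cast
      ring
    rw [h2, Real.sqrt_sq (by have := hE0 (W * n); positivity)]
  rw [h1]
  have h2 := Real.sum_sqrt_mul_sqrt_le (SF U)
    (f := fun n => ((B ^ 2 : ℕ) : ℝ) ^ n.primeFactors.card * E (W * n))
    (g := fun n => E (W * n)) (fun n => by have := hE0 (W * n); positivity) (fun n => hE0 _)
  refine h2.trans ?_
  rw [← Real.sqrt_mul (Finset.sum_nonneg fun n _ => by have := hE0 (W * n); positivity),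
    ← Real.sqrt_mul' _ (Finset.sum_nonneg fun n _ => by positivity)]
  apply Real.sqrt_le_sqrt
  have hA : ∑ n ∈ SF U, ((B ^ 2 : ℕ) : ℝ) ^ n.primeFactors.card * E (W * n) ≤
      T0 * ∑ n ∈ SF U, ((B ^ 2 : ℕ) : ℝ) ^ n.primeFactors.card / n.totient := by
    rw [Finset.mul_sum]
    refine Finset.sum_le_sum fun n hn => ?_
    have hn1 := hn0 n hn
    have h3 := htriv (W * n) (Nat.mul_pos hW hn1) (hWn n hn)
    have h4 : (0 : ℝ) < n.totient := by exact_mod_cast Nat.totient_pos.2 hn1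
    have h5 : (n.totient : ℝ) ≤ (W * n).totient := by
      exact_mod_cast Nat.le_of_dvd (Nat.totient_pos.2 (Nat.mul_pos hW hn1))
        (Nat.totient_dvd_of_dvd (dvd_mul_left n W))
    have h6 : E (W * n) ≤ T0 / n.totient :=
      h3.trans (div_le_div_of_nonneg_left hT0 h4 h5)
    calc ((B ^ 2 : ℕ) : ℝ) ^ n.primeFactors.card * E (W * n)
        ≤ ((B ^ 2 : ℕ) : ℝ) ^ n.primeFactors.card * (T0 / n.totient) :=
          mul_le_mul_of_nonneg_left h6 (by positivity)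
      _ = _ := by ring
  have hB : ∑ n ∈ SF U, E (W * n) ≤ S0 := by
    refine le_trans ?_ hsum
    rw [← Finset.sum_image (f := fun q : ℕ => E q) (g := fun n : ℕ => W * n) (s := SF U)]
    · refine Finset.sum_le_sum_of_subset_of_nonneg ?_ fun q _ _ => hE0 q
      intro q hq
      obtain ⟨n, hn, rfl⟩ := Finset.mem_image.1 hq
      rw [Finset.mem_Icc]
      exact ⟨Nat.mul_pos hW (hn0 n hn), Nat.le_floor (hWn n hn)⟩
    · intro m _ n _ hmn
      exact Nat.eq_of_mul_eq_mul_left hW hmn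
  calc (∑ n ∈ SF U, ((B ^ 2 : ℕ) : ℝ) ^ n.primeFactors.card * E (W * n)) * ∑ n ∈ SF U, E (W * n)
      ≤ (T0 * ∑ n ∈ SF U, ((B ^ 2 : ℕ) : ℝ) ^ n.primeFactors.card / n.totient) * S0 :=
        mul_le_mul hA hB (Finset.sum_nonneg fun n _ => hE0 _)
          (mul_nonneg hT0 (Finset.sum_nonneg fun n _ => by positivity))
    _ = _ := by ring

theorem group_sum (W : ℕ) (K M B : ℕ) (hKB : K ≤ B) (hMB : M ≤ B) (P : Finset ℕ)
    (hP : ∀ p ∈ P, p.Prime) (Y Z F : ℝ) (hY : 0 ≤ Y) (hF : 0 ≤ F) (E : ℕ → ℝ)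
    (hE0 : ∀ q, 0 ≤ E q) {κ : Type} (A : Finset κ) (q : κ → ℕ) (c : κ → ℝ)
    (hq : ∀ k ∈ A, Squarefree (q k)) (h2 : ∀ k ∈ A, ∀ p ∈ P, ¬ p ∣ q k)
    (hZ : ∀ k ∈ A, (q k : ℝ) ≤ Z)
    (hM : ∀ n, ∑ k ∈ A.filter (fun k => q k = n), |c k| ≤ (M : ℝ) ^ n.primeFactors.card)
    (f : Finset ℕ → ℝ) (hf : ∀ S, |f S| ≤ F) (hfY : ∀ S, f S ≠ 0 → ∏ p ∈ S, (p : ℝ) ≤ Y) :
    ∑ k ∈ A, |c k| * ∑ S ∈ P.powerset, |f S| * (K : ℝ) ^ S.card * E (W * q k * ∏ p ∈ S, p) ≤
      F * ∑ n ∈ SF (Z * Y), (B : ℝ) ^ n.primeFactors.card * E (W * n) := by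
  classical
  set g : ℕ → ℝ := fun m => ∑ S ∈ P.powerset, |f S| * (K : ℝ) ^ S.card * E (W * m * ∏ p ∈ S, p)
    with hg
  have hg0 : ∀ m, 0 ≤ g m := fun m => Finset.sum_nonneg fun S _ => by
    have := hE0 (W * m * ∏ p ∈ S, p)
    positivity
  have e1 : ∑ k ∈ A, |c k| * g (q k) = ∑ m ∈ A.image q,
      (∑ k ∈ A.filter (fun k => q k = m), |c k|) * g m := by
    rw [← Finset.sum_fiberwise_of_maps_to (s := A) (t := A.image q) (g := q)
      (fun k hk => Finset.mem_image_of_mem q hk)]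
    refine Finset.sum_congr rfl fun m _ => ?_
    rw [Finset.sum_mul]
    refine Finset.sum_congr rfl fun k hk => ?_
    rw [(Finset.mem_filter.1 hk).2]
  change ∑ k ∈ A, |c k| * g (q k) ≤ _
  rw [e1]
  have e2 : ∑ m ∈ A.image q, (∑ k ∈ A.filter (fun k => q k = m), |c k|) * g m ≤
      ∑ m ∈ A.image q, (M : ℝ) ^ m.primeFactors.card * g m :=
    Finset.sum_le_sum fun m _ => mul_le_mul_of_nonneg_right (hM m) (hg0 m)
  refine e2.trans ?_
  set D := (A.image q) ×ˢ (P.powerset.filter (fun S => f S ≠ 0)) with hD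
  have hDm : ∀ x ∈ D, Squarefree x.1 ∧ (x.1 : ℝ) ≤ Z ∧ (∀ p ∈ P, ¬ p ∣ x.1) ∧ x.2 ⊆ P ∧
      f x.2 ≠ 0 := by
    intro x hx
    rw [hD, Finset.mem_product, Finset.mem_filter, Finset.mem_powerset] at hx
    obtain ⟨k, hk, hk1⟩ := Finset.mem_image.1 hx.1
    rw [← hk1]
    exact ⟨hq k hk, hZ k hk, h2 k hk, hx.2.1, hx.2.2⟩
  have hprod : ∀ S : Finset ℕ, S ⊆ P → (∏ p ∈ S, p).primeFactors = S := by
    intro S hS
    exact Nat.primeFactors_prod fun p hp => hP p (hS hp)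
  have hcop : ∀ x ∈ D, Nat.Coprime x.1 (∏ p ∈ x.2, p) := by
    intro x hx
    obtain ⟨a1, a2, a3, a4, a5⟩ := hDm x hx
    refine Nat.Coprime.prod_right fun p hp => ?_
    rw [Nat.coprime_comm, Nat.Prime.coprime_iff_not_dvd (hP p (a4 hp))]
    exact a3 p (a4 hp)
  have hpf : ∀ x ∈ D, (x.1 * ∏ p ∈ x.2, p).primeFactors = x.1.primeFactors ∪ x.2 := by
    intro x hx
    obtain ⟨a1, a2, a3, a4, a5⟩ := hDm x hx
    rw [(hcop x hx).primeFactors_mul, hprod x.2 a4]
  have hcard : ∀ x ∈ D, (x.1 * ∏ p ∈ x.2, p).primeFactors.card =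
      x.1.primeFactors.card + x.2.card := by
    intro x hx
    obtain ⟨a1, a2, a3, a4, a5⟩ := hDm x hx
    rw [hpf x hx, Finset.card_union_of_disjoint]
    rw [Finset.disjoint_left]
    intro p hp hp2
    exact a3 p (a4 hp2) (Nat.dvd_of_mem_primeFactors hp)
  have e3 : ∑ m ∈ A.image q, (M : ℝ) ^ m.primeFactors.card * g m ≤
      ∑ x ∈ D, F * ((B : ℝ) ^ (x.1 * ∏ p ∈ x.2, p).primeFactors.card *
        E (W * (x.1 * ∏ p ∈ x.2, p))) := by
    rw [hD, Finset.sum_product]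
    refine Finset.sum_le_sum fun m hm => ?_
    rw [hg]
    simp only
    rw [Finset.mul_sum]
    rw [← Finset.sum_filter_add_sum_filter_not P.powerset (fun S => f S ≠ 0)]
    have z1 : ∑ S ∈ P.powerset.filter (fun S => ¬ f S ≠ 0), (M : ℝ) ^ m.primeFactors.card *
        (|f S| * (K : ℝ) ^ S.card * E (W * m * ∏ p ∈ S, p)) = 0 := by
      refine Finset.sum_eq_zero fun S hS => ?_
      have := (Finset.mem_filter.1 hS).2
      push Not at this
      rw [this]
      simp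
    rw [z1, add_zero]
    refine Finset.sum_le_sum fun S hS => ?_
    have hx : (m, S) ∈ D := by
      rw [hD, Finset.mem_product]
      exact ⟨hm, hS⟩
    have hc := hcard (m, S) hx
    simp only at hc
    rw [hc, pow_add, ← mul_assoc W m]
    have b1 : (M : ℝ) ^ m.primeFactors.card ≤ (B : ℝ) ^ m.primeFactors.card :=
      pow_le_pow_left₀ (Nat.cast_nonneg _) (by exact_mod_cast hMB) _
    have b2 : (K : ℝ) ^ S.card ≤ (B : ℝ) ^ S.card :=
      pow_le_pow_left₀ (Nat.cast_nonneg _) (by exact_mod_cast hKB) _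
    have b3 := hf S
    have b4 := hE0 (W * m * ∏ p ∈ S, p)
    have b5 : |f S| * (K : ℝ) ^ S.card ≤ F * (B : ℝ) ^ S.card :=
      mul_le_mul b3 b2 (by positivity) hF
    calc (M : ℝ) ^ m.primeFactors.card * (|f S| * (K : ℝ) ^ S.card * E (W * m * ∏ p ∈ S, p))
        ≤ (B : ℝ) ^ m.primeFactors.card * (F * (B : ℝ) ^ S.card * E (W * m * ∏ p ∈ S, p)) :=
          mul_le_mul b1 (mul_le_mul_of_nonneg_right b5 b4) (by positivity) (by positivity)
      _ = _ := by ring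
  refine e3.trans ?_
  rw [← Finset.mul_sum]
  apply mul_le_mul_of_nonneg_left _ hF
  rw [← Finset.sum_image (f := fun n : ℕ => (B : ℝ) ^ n.primeFactors.card * E (W * n))
    (g := fun x : ℕ × Finset ℕ => x.1 * ∏ p ∈ x.2, p) (s := D)]
  · refine Finset.sum_le_sum_of_subset_of_nonneg ?_ fun n _ _ => by
      have := hE0 (W * n)
      positivity
    intro n hn
    obtain ⟨x, hx, rfl⟩ := Finset.mem_image.1 hn
    obtain ⟨a1, a2, a3, a4, a5⟩ := hDm x hx
    rw [mem_SF]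
    constructor
    · rw [Nat.squarefree_mul (hcop x hx)]
      refine ⟨a1, ?_⟩
      have hS : ∀ p ∈ x.2, p.Prime := fun p hp => hP p (a4 hp)
      exact sqf_prod x.2 hS
    · push_cast
      have h4 := hfY x.2 a5
      exact mul_le_mul a2 h4 (Finset.prod_nonneg fun p _ => Nat.cast_nonneg _)
        ((Nat.cast_nonneg x.1).trans a2)
  · intro x hx y hy hxy
    obtain ⟨a1, a2, a3, a4, a5⟩ := hDm x hx
    obtain ⟨b1, b2, b3, b4, b5⟩ := hDm y hy
    simp only at hxy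
    have hS : x.2 = y.2 := by
      have h3 := hpf x hx
      rw [hxy, hpf y hy] at h3
      ext p
      constructor
      · intro hp
        have : p ∈ y.1.primeFactors ∪ y.2 := h3 ▸ Finset.mem_union_right _ hp
        rcases Finset.mem_union.1 this with h4 | h4
        · exact absurd (Nat.dvd_of_mem_primeFactors h4) (b3 p (a4 hp))
        · exact h4
      · intro hp
        have : p ∈ x.1.primeFactors ∪ x.2 := h3 ▸ Finset.mem_union_right _ hp
        rcases Finset.mem_union.1 this with h4 | h4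
        · exact absurd (Nat.dvd_of_mem_primeFactors h4) (a3 p (b4 hp))
        · exact h4
    rw [hS] at hxy
    have hpos : 0 < ∏ p ∈ y.2, p := Finset.prod_pos fun p hp => (hP p (b4 hp)).pos
    exact Prod.ext (Nat.eq_of_mul_eq_mul_right hpos hxy) hS

end Pool.Agent.H14.L2
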