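import Pool.Agent.H14.L2.Wt
import Pool.Agent.H21.SH.Up
import Pool.Agent.H92.MM.Def

/-!
[H14 L2 PW]  From the weight `vp J x (N + h0)` to `gw x N`, and the two windows.
-/

namespace Pool.Agent.H14.L2

open Finset Filter Pool.Agent.H21.MT Pool.Agent.H21.SH Pool.Agent.H92.MM

theorem pw (J A h0 : ℕ) (ε : ℝ) (hε : 0 < ε) (hε1 : ε ≤ 1) : ∀ᶠ x : ℝ in atTop, ∀ N ∈ Win x,
    |gw x N - vp J x (N + h0) / (Real.log x) ^ (J + 1)| ≤
      2 * ε * (vp J x (N + h0) / (Real.log x) ^ (J + 1)) + 2 * (wN x N / (Real.log x) ^ A) := by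
  filter_upwards [lo_pt J A h0 ε hε, up_pt J A h0 ε hε, eventually_ge_atTop (3 : ℝ)]
    with x h1 h2 hx N hN
  have hL : 1 ≤ Real.log x := by
    rw [Real.le_log_iff_exp_le (by linarith)]
    linarith [Real.exp_one_lt_d9]
  have a1 := h1 N hN
  have a2 := h2 N hN
  have hLJ : 0 < (Real.log x) ^ (J + 1) := by positivity
  have hv : vp J x (N + h0) = (Real.log (N + h0 : ℕ)) ^ (J + 1) * gw x (N + h0) := rfl
  have hv0 := vp_nonneg J x (N + h0)
  obtain ⟨v, hvd⟩ : ∃ v, v = vp J x (N + h0) / (Real.log x) ^ (J + 1) := ⟨_, rfl⟩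
  obtain ⟨w, hwd⟩ : ∃ w, w = wN x N / (Real.log x) ^ A := ⟨_, rfl⟩
  have hw0 : 0 ≤ w := by
    rw [hwd]
    have := (wN_pos x N).le
    positivity
  have hvn : 0 ≤ v := by
    rw [hvd]
    positivity
  have b1 : v ≤ (1 + ε) * gw x N + w := by
    rw [hvd, div_le_iff₀ hLJ, hv, hwd]
    linarith
  have b2 : gw x N ≤ (1 + ε) * v + w := by
    have e1 : (1 + ε) / (Real.log x) ^ (J + 1) * ((Real.log (N + h0 : ℕ)) ^ (J + 1) *
        gw x (N + h0)) = (1 + ε) * v := by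
      rw [hvd, hv]
      ring
    rw [e1, ← hwd] at a2
    exact a2
  rw [← hvd, ← hwd, abs_le]
  constructor
  · have h3 : ε * gw x N ≤ ε * ((1 + ε) * v + w) := mul_le_mul_of_nonneg_left b2 hε.le
    have h4 : ε * ((1 + ε) * v + w) ≤ 2 * ε * v + w := by
      have h5 : ε * (ε * v) ≤ ε * (1 * v) :=
        mul_le_mul_of_nonneg_left (mul_le_mul_of_nonneg_right hε1 hvn) hε.le
      have h6 : ε * w ≤ 1 * w := mul_le_mul_of_nonneg_right hε1 hw0
      nlinarith
    linarith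
  · have h3 : 0 ≤ ε * v := mul_nonneg hε.le hvn
    linarith

theorem tx_sub : ∀ᶠ x : ℝ in atTop, Tx x ⊆ Win x := by
  filter_upwards [eventually_ge_atTop (1 : ℝ)] with x hx N hN
  unfold Tx at hN
  unfold Win
  rw [Finset.mem_Ioc] at hN ⊢
  refine ⟨hN.1, hN.2.trans (Nat.floor_le_floor ?_)⟩
  rw [← Real.rpow_natCast]
  exact Real.rpow_le_rpow_of_exponent_le hx (by norm_num)

theorem tail_pt : ∀ᶠ x : ℝ in atTop, ∀ N ∈ Win x, N ∉ Tx x →
    gw x N ≤ Real.exp (-(1 / 8000000) * (Real.log x) ^ 2) := by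
  filter_upwards [eventually_ge_atTop (3 : ℝ)] with x hx N hN hNT
  have hx0 : 0 < x := by linarith
  have hL : 0 ≤ Real.log x := Real.log_nonneg (by linarith)
  unfold Win at hN
  unfold Tx at hNT
  rw [Finset.mem_Ioc] at hN hNT
  have h1 : ⌊x ^ (1 + 1 / 2000 : ℝ)⌋₊ < N := by
    by_contra h2
    exact hNT ⟨hN.1, by omega⟩
  have h2 : x ^ (1 + 1 / 2000 : ℝ) < N := (Nat.floor_lt (by positivity)).1 h1
  have h3 : x ^ (1 / 2000 : ℝ) ≤ (N : ℝ) / x := by
    rw [le_div_iff₀ hx0]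
    rw [Real.rpow_add hx0, Real.rpow_one] at h2
    linarith
  have h4 : Real.log x / 2000 ≤ Real.log ((N : ℝ) / x) := by
    have h5 := Real.log_le_log (by positivity) h3
    rw [Real.log_rpow hx0] at h5
    linarith
  unfold gw
  apply Real.exp_le_exp.2
  have h5 : (Real.log x / 2000) ^ 2 ≤ (Real.log ((N : ℝ) / x)) ^ 2 :=
    pow_le_pow_left₀ (by positivity) h4 2
  nlinarith

theorem tail_sum : ∀ᶠ x : ℝ in atTop, ∀ (S : Finset ℕ) (F : ℕ → ℝ), S ⊆ Win x →
    (∀ N ∈ S, N ∉ Tx x) → (∀ N ∈ S, F N ≤ x) → ∑ N ∈ S, gw x N * F N ≤ 1 := by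
  filter_upwards [tail_pt, exp_log_sq_gen 3 (1 / 8000000) (by norm_num),
    eventually_ge_atTop (3 : ℝ)] with x h1 h2 hx S F hS hST hF
  have hx0 : 0 < x := by linarith
  have hb : ∀ N ∈ S, gw x N * F N ≤ Real.exp (-(1 / 8000000) * (Real.log x) ^ 2) * x := by
    intro N hN
    have h3 := h1 N (hS hN) (hST N hN)
    calc gw x N * F N ≤ gw x N * x := mul_le_mul_of_nonneg_left (hF N hN) (gw_pos x N).le
      _ ≤ Real.exp (-(1 / 8000000) * (Real.log x) ^ 2) * x :=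
          mul_le_mul_of_nonneg_right h3 hx0.le
  refine (Finset.sum_le_card_nsmul _ _ _ hb).trans ?_
  rw [nsmul_eq_mul]
  have hcard : (S.card : ℝ) ≤ x ^ 2 := by
    have hc : S.card ≤ (Win x).card := Finset.card_le_card hS
    unfold Win at hc
    rw [Nat.card_Ioc] at hc
    have h5 : S.card ≤ ⌊x ^ 2⌋₊ := hc.trans (Nat.sub_le _ _)
    calc (S.card : ℝ) ≤ (⌊x ^ 2⌋₊ : ℝ) := by exact_mod_cast h5
      _ ≤ x ^ 2 := Nat.floor_le (by positivity)
  calc (S.card : ℝ) * (Real.exp (-(1 / 8000000) * (Real.log x) ^ 2) * x)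
      ≤ x ^ 2 * (Real.exp (-(1 / 8000000) * (Real.log x) ^ 2) * x) :=
        mul_le_mul_of_nonneg_right hcard (by positivity)
    _ = x ^ 3 * Real.exp (-(1 / 8000000) * (Real.log x) ^ 2) := by ring
    _ ≤ 1 := h2

theorem mass_XG : ∀ᶠ x : ℝ in atTop, mass x ≤ XG x ∧ XG x ≤ mass x + 1 := by
  filter_upwards [tail_sum, tx_sub, eventually_ge_atTop (1 : ℝ)] with x h1 h2 hx
  unfold mass XG
  constructor
  · exact Finset.sum_le_sum_of_subset_of_nonneg h2 fun N _ _ => (gw_pos x N).le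
  · rw [← Finset.sum_sdiff h2]
    have h3 := h1 (Win x \ Tx x) (fun _ => 1) Finset.sdiff_subset
      (fun N hN => (Finset.mem_sdiff.1 hN).2) (fun _ _ => hx)
    simp only [mul_one] at h3
    linarith

theorem conv (J A h0 : ℕ) (ε : ℝ) (hε : 0 < ε) (hε1 : ε ≤ 1) : ∀ᶠ x : ℝ in atTop,
    ∀ (R : ℕ → Prop) [DecidablePred R] (F : ℕ → ℝ), (∀ N, 0 ≤ F N) → (∀ N ∈ Win x, F N ≤ x) →
    |∑ N ∈ (Tx x).filter (fun N => R N ∧ (N + h0).Prime), gw x N * F N -
      (∑ N ∈ (Tp x h0).filter R, vp J x (N + h0) * F N) / (Real.log x) ^ (J + 1)| ≤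
      2 * ε * ((∑ N ∈ (Tp x h0).filter R, vp J x (N + h0) * F N) / (Real.log x) ^ (J + 1)) +
      2 * ((∑ N ∈ Win x, wN x N * F N) / (Real.log x) ^ A) + 1 := by
  filter_upwards [pw J A h0 ε hε hε1, tail_sum, tx_sub, eventually_ge_atTop (3 : ℝ)]
    with x h1 h2 h3 hx R _ F hF0 hFx
  have hL : 1 ≤ Real.log x := by
    rw [Real.le_log_iff_exp_le (by linarith)]
    linarith [Real.exp_one_lt_d9]
  have e1 : (Tp x h0).filter R = (Win x).filter (fun N => R N ∧ (N + h0).Prime) := by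
    unfold Tp
    rw [Finset.filter_filter]
    refine Finset.filter_congr fun N _ => ?_
    tauto
  have hsub : (Tx x).filter (fun N => R N ∧ (N + h0).Prime) ⊆ (Tp x h0).filter R := by
    rw [e1]
    exact Finset.filter_subset_filter _ h3
  set B := (Tp x h0).filter R with hB
  have hBW : B ⊆ Win x := by
    rw [e1]
    exact Finset.filter_subset _ _
  -- the difference of the windows
  have h4 : |∑ N ∈ (Tx x).filter (fun N => R N ∧ (N + h0).Prime), gw x N * F N -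
      ∑ N ∈ B, gw x N * F N| ≤ 1 := by
    rw [abs_sub_comm, ← Finset.sum_sdiff hsub, add_sub_cancel_right,
      abs_of_nonneg (Finset.sum_nonneg fun N _ => mul_nonneg (gw_pos x N).le (hF0 N))]
    refine h2 _ F (Finset.sdiff_subset.trans hBW) ?_ ?_
    · intro N hN hNT
      rw [Finset.mem_sdiff] at hN
      apply hN.2
      have h5 := hN.1
      rw [e1, Finset.mem_filter] at h5
      exact Finset.mem_filter.2 ⟨hNT, h5.2⟩
    · intro N hN
      exact hFx N (hBW (Finset.mem_sdiff.1 hN).1)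
  -- the pointwise comparison
  have h5 : |∑ N ∈ B, gw x N * F N -
      (∑ N ∈ B, vp J x (N + h0) * F N) / (Real.log x) ^ (J + 1)| ≤
      2 * ε * ((∑ N ∈ B, vp J x (N + h0) * F N) / (Real.log x) ^ (J + 1)) +
      2 * ((∑ N ∈ Win x, wN x N * F N) / (Real.log x) ^ A) := by
    have f1 : ∑ N ∈ B, gw x N * F N - (∑ N ∈ B, vp J x (N + h0) * F N) / (Real.log x) ^ (J + 1) =
        ∑ N ∈ B, (gw x N - vp J x (N + h0) / (Real.log x) ^ (J + 1)) * F N := by
      rw [Finset.sum_div, ← Finset.sum_sub_distrib]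
      refine Finset.sum_congr rfl fun N _ => ?_
      ring
    have f2 : ∑ N ∈ B, (2 * ε * (vp J x (N + h0) / (Real.log x) ^ (J + 1)) +
        2 * (wN x N / (Real.log x) ^ A)) * F N ≤
        2 * ε * ((∑ N ∈ B, vp J x (N + h0) * F N) / (Real.log x) ^ (J + 1)) +
        2 * ((∑ N ∈ Win x, wN x N * F N) / (Real.log x) ^ A) := by
      have f3 : ∑ N ∈ B, (2 * ε * (vp J x (N + h0) / (Real.log x) ^ (J + 1)) +
          2 * (wN x N / (Real.log x) ^ A)) * F N =
          2 * ε * ((∑ N ∈ B, vp J x (N + h0) * F N) / (Real.log x) ^ (J + 1)) +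
          2 * ((∑ N ∈ B, wN x N * F N) / (Real.log x) ^ A) := by
        rw [Finset.sum_div, Finset.sum_div, Finset.mul_sum, Finset.mul_sum,
          ← Finset.sum_add_distrib]
        refine Finset.sum_congr rfl fun N _ => ?_
        ring
      rw [f3]
      have f4 : ∑ N ∈ B, wN x N * F N ≤ ∑ N ∈ Win x, wN x N * F N :=
        Finset.sum_le_sum_of_subset_of_nonneg hBW fun N _ _ =>
          mul_nonneg (wN_pos x N).le (hF0 N)
      have f5 : (∑ N ∈ B, wN x N * F N) / (Real.log x) ^ A ≤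
          (∑ N ∈ Win x, wN x N * F N) / (Real.log x) ^ A :=
        div_le_div_of_nonneg_right f4 (by positivity)
      linarith
    rw [f1]
    refine (Finset.abs_sum_le_sum_abs _ _).trans ((Finset.sum_le_sum fun N hN => ?_).trans f2)
    rw [abs_mul, abs_of_nonneg (hF0 N)]
    exact mul_le_mul_of_nonneg_right (h1 N (hBW hN)) (hF0 N)
  have h6 := abs_sub_le (∑ N ∈ (Tx x).filter (fun N => R N ∧ (N + h0).Prime), gw x N * F N)
    (∑ N ∈ B, gw x N * F N) ((∑ N ∈ B, vp J x (N + h0) * F N) / (Real.log x) ^ (J + 1))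
  linarith

end Pool.Agent.H14.L2
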