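import Pool.Agent.H14.L2.Sm
import Pool.Agent.H14.L2.Er
import Pool.Agent.H14.L2.Pw
import Pool.Agent.H95.L1.Cho
import Pool.Agent.H95.L1.Crt
import Pool.Agent.H95.L1.Qk
import Pool.Agent.H95.L1.Num
import Pool.Agent.H95.L1.Rgs
import Pool.Agent.H95.L1.Adm

/-!
[H14 L2 FM]  Small monomials over the primes `N + h j0`: the family of residue classes.
-/

namespace Pool.Agent.H14.L2

open Finset Filter Pool.Agent.H95.FL Pool.Agent.H95.L1 Pool.Agent.H92.MM Pool.Agent.H21.MT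

open Classical in
theorem mem_DP {I : Type} (h : I → ℕ) (P : Finset ℕ) (N p : ℕ) :
    p ∈ DP h P N ↔ p ∈ P ∧ ∃ i, p ∣ N + h i := by
  unfold DP
  rw [Finset.mem_filter]

variable {ι : Type} [Fintype ι] [DecidableEq ι] {L : ℕ}

/-- the sum of `1/φ(q)` over the family -/
noncomputable def GP (T : Fin L → Finset ℕ) (A : ι → Fin L → ℕ) : ℝ :=
  ∑ k ∈ Fam T A, 1 / ((qk k).totient : ℝ)

theorem phi_near (q : ℕ) (hq : Squarefree q) (y : ℝ) (hy : 1 ≤ y) (n0 : ℝ)
    (hp : ∀ p : ℕ, p.Prime → p ∣ q → y ≤ (p : ℝ)) (hn : (q.primeFactors.card : ℝ) ≤ n0) :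
    (q : ℝ) * (1 - n0 / y) ≤ q.totient := by
  have h1 : (q.totient : ℝ) = ∏ p ∈ q.primeFactors, ((p : ℝ) - 1) := by
    rw [← prod_totient q.primeFactors (fun p hp => Nat.prime_of_mem_primeFactors hp),
      Nat.prod_primeFactors_of_squarefree hq]
  have h2 : (q : ℝ) = ∏ p ∈ q.primeFactors, (p : ℝ) := by
    conv_lhs => rw [← Nat.prod_primeFactors_of_squarefree hq]
    push_cast
    rfl
  have hy0 : 0 < y := by linarith
  have h3 : (1 - 1 / y) ^ q.primeFactors.card * ∏ p ∈ q.primeFactors, (p : ℝ) ≤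
      ∏ p ∈ q.primeFactors, ((p : ℝ) - 1) := by
    rw [← Finset.prod_const, ← Finset.prod_mul_distrib]
    refine Finset.prod_le_prod (fun p _ => ?_) fun p hpp => ?_
    · have h4 : 1 / y ≤ 1 := by
        rw [div_le_one hy0]
        exact hy
      exact mul_nonneg (by linarith) (Nat.cast_nonneg _)
    · have h4 := hp p (Nat.prime_of_mem_primeFactors hpp) (Nat.dvd_of_mem_primeFactors hpp)
      have h5 : 1 ≤ 1 / y * p := by
        rw [div_mul_eq_mul_div, one_mul, le_div_iff₀ hy0]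
        linarith
      have h6 : (1 - 1 / y) * (p : ℝ) = p - 1 / y * p := by ring
      rw [h6]
      linarith
  have h4 : 1 - n0 / y ≤ (1 - 1 / y) ^ q.primeFactors.card := by
    have h5 : 1 / y ≤ 1 := by
      rw [div_le_one hy0]
      exact hy
    have h6 := one_add_mul_le_pow (a := -(1 / y)) (by linarith) q.primeFactors.card
    have h7 : (q.primeFactors.card : ℝ) * (1 / y) ≤ n0 * (1 / y) :=
      mul_le_mul_of_nonneg_right hn (by positivity)
    have h8 : n0 / y = n0 * (1 / y) := by ring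
    have h9 : 1 + -(1 / y) = 1 - 1 / y := by ring
    rw [h9] at h6
    linarith
  calc (q : ℝ) * (1 - n0 / y) = (1 - n0 / y) * (q : ℝ) := mul_comm _ _
    _ ≤ (1 - 1 / y) ^ q.primeFactors.card * (q : ℝ) :=
        mul_le_mul_of_nonneg_right h4 (Nat.cast_nonneg _)
    _ = (1 - 1 / y) ^ q.primeFactors.card * ∏ p ∈ q.primeFactors, (p : ℝ) := by rw [← h2]
    _ ≤ _ := h3.trans (le_of_eq h1.symm)

/-- facts on the family for given `x` -/
structure Ok (x a : ℝ) (L : ℕ) (h : ι → ℕ) (w b : ℕ) : Prop where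
  x1 : 1 < x
  a0 : 0 < a
  wlt : (w : ℝ) < x ^ a
  ale : a ≤ 1 / 4
  hW : ∀ j, Nat.Coprime (b + h j) (primorial w)
  hd : ∀ p : ℕ, p.Prime → w < p → ∀ i j, i ≠ j → ¬ (p : ℤ) ∣ (h i : ℤ) - h j

theorem Ok.mem_T {x a : ℝ} {h : ι → ℕ} {w b : ℕ} (hok : Ok x a L h w b) {i : Fin L} {p : ℕ}
    (hp : p ∈ TI x a L i) : p.Prime ∧ x ^ a ≤ (p : ℝ) ∧ w < p := by
  have h1 := TI_ge hok.x1.le hok.a0 hp
  refine ⟨(mem_TI.1 hp).1, h1, ?_⟩
  have := hok.wlt
  exact_mod_cast lt_of_lt_of_le this h1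

theorem Ok.mem_P {x a : ℝ} {h : ι → ℕ} {w b : ℕ} (hok : Ok x a L h w b) {p : ℕ}
    (hp : p ∈ PP x a (primorial w)) : p.Prime ∧ (p : ℝ) < x ^ a ∧ w < p ∧ ¬ p ∣ primorial w := by
  have h1 := mem_PP.1 hp
  refine ⟨h1.1, h1.2.2, ?_, h1.2.1⟩
  by_contra h2
  exact h1.2.1 (h1.1.dvd_primorial_iff.2 (by omega))

/-- the primes of a member of the family -/
theorem Ok.fam_prime {x a : ℝ} {h : ι → ℕ} {w b : ℕ} (hok : Ok x a L h w b) {A : ι → Fin L → ℕ}
    {k : ι → Fin L → Finset ℕ} (hk : k ∈ Fam (TI x a L) A) {p : ℕ} (hp : p.Prime) (hd : p ∣ qk k) :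
    x ^ a ≤ (p : ℝ) ∧ w < p ∧ ∃ j i, p ∈ k j i := by
  have hA := (mem_Fam.1 hk).1
  obtain ⟨j, i, hji⟩ := prime_dvd_qk (fun i p hp => (hok.mem_T hp).1) hA hp hd
  have h2 := hok.mem_T ((mem_All.1 hA j i).1 hji)
  exact ⟨h2.2.1, h2.2.2, j, i, hji⟩

theorem Ok.q_le {x a : ℝ} {h : ι → ℕ} {w b : ℕ} (hok : Ok x a L h w b) {A : ι → Fin L → ℕ}
    {k : ι → Fin L → Finset ℕ} (hk : k ∈ Fam (TI x a L) A) : (qk k : ℝ) ≤ x ^ sl a L A := by
  have hx0 : 0 < x := by linarith [hok.x1]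
  rw [← prod_level hx0]
  exact qk_le (fun i => x ^ (a * 2 ^ ((i : ℕ) + 1))) (fun i p hp => ((mem_TI.1 hp).2.2).le)
    (fun i => (Real.rpow_pos_of_pos hx0 _).le) (mem_Fam.1 hk).1

theorem Ok.card_le {x a : ℝ} {h : ι → ℕ} {w b : ℕ} (hok : Ok x a L h w b) (A : ι → Fin L → ℕ) :
    ((Fam (TI x a L) A).card : ℝ) ≤ x ^ sl a L A := by
  classical
  have hx0 : 0 < x := by linarith [hok.x1]
  rw [← prod_level hx0]
  refine le_trans ?_ (card_All_le (TI x a L) A (fun i => x ^ (a * 2 ^ ((i : ℕ) + 1)))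
    fun i => TI_card hok.x1.le i)
  have : (Fam (TI x a L) A).card ≤ (All (TI x a L) A).card := by
    unfold Fam
    exact Finset.card_filter_le _ _
  exact_mod_cast this

open Classical in
/-- the small monomial as a sum of indicators of residue classes -/
theorem Ok.sm_fam {x a : ℝ} {h : ι → ℕ} {w b : ℕ} (hok : Ok x a L h w b) (A : ι → Fin L → ℕ) :
    ∃ r : (ι → Fin L → Finset ℕ) → ℕ, (∀ N, sm x a L h A N =
      ∑ k ∈ Fam (TI x a L) A, if N % qk k = r k % qk k then (1 : ℝ) else 0) ∧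
      ∀ k ∈ Fam (TI x a L) A, ∀ N, Dv h k N ↔ N % qk k = r k % qk k := by
  have hT : ∀ i : Fin L, ∀ p ∈ TI x a L i, p.Prime := fun i p hp => (hok.mem_T hp).1
  have h1 : ∀ k : ι → Fin L → Finset ℕ, ∃ r : ℕ, k ∈ Fam (TI x a L) A →
      ∀ N, Dv h k N ↔ N % qk k = r % qk k := by
    intro k
    by_cases hk : k ∈ Fam (TI x a L) A
    · obtain ⟨r, hr⟩ := crt (TI x a L) A h hT k hk
      exact ⟨r, fun _ => hr⟩
    · exact ⟨0, fun h2 => absurd h2 hk⟩
  choose r hr using h1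
  refine ⟨r, fun N => ?_, fun k hk => hr k hk⟩
  rw [sm_eq, cho_fam (TI x a L) A h (fun i i' => TI_disj hok.x1.le hok.a0 L i i')
    (fun i p hp => hok.hd p (hok.mem_T hp).1 (hok.mem_T hp).2.2) N]
  refine Finset.sum_congr rfl fun k hk => ?_
  simp only [hr k hk N]

/-- the presieve at the primes `N + h j0` -/
theorem Ok.adm_prime {x a : ℝ} {h : ι → ℕ} {w b : ℕ} (hok : Ok x a L h w b) (j0 : ι) {N : ℕ}
    (hN : N ∈ Tp x (h j0)) : Adm x a h (primorial w) b N ↔ N % primorial w = b % primorial w ∧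
      DP (fun j : {j // j ≠ j0} => h j.1) (PP x a (primorial w)) N = ∅ := by
  classical
  rw [adm_iff x a h w b hok.hW N]
  have hx0 : 0 < x := by linarith [hok.x1]
  have h1 : DP h (PP x a (primorial w)) N =
      DP (fun j : {j // j ≠ j0} => h j.1) (PP x a (primorial w)) N := by
    ext p
    rw [mem_DP, mem_DP]
    constructor
    · rintro ⟨hp, j, hj⟩
      refine ⟨hp, ?_⟩
      by_cases hjj : j = j0
      · exfalso
        rw [hjj] at hj
        unfold Tp Win at hN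
        rw [Finset.mem_filter, Finset.mem_Ioc] at hN
        have h2 := (Nat.prime_dvd_prime_iff_eq (hok.mem_P hp).1 hN.2).1 hj
        have h3 := (hok.mem_P hp).2.1
        have h4 : Real.sqrt x < N := (Nat.floor_lt (Real.sqrt_nonneg _)).1 hN.1.1
        have h5 : x ^ a ≤ Real.sqrt x := by
          rw [Real.sqrt_eq_rpow]
          exact Real.rpow_le_rpow_of_exponent_le hok.x1.le (by linarith [hok.ale])
        have h6 : (N : ℝ) ≤ p := by
          rw [h2]
          push_cast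
          have : (0 : ℝ) ≤ h j0 := Nat.cast_nonneg _
          linarith
        linarith
      · exact ⟨⟨j, hjj⟩, hj⟩
    · rintro ⟨hp, j, hj⟩
      exact ⟨hp, j.1, hj⟩
  rw [h1]

end Pool.Agent.H14.L2
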