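import Pool.Agent.H14.L2.Sm
import Pool.Agent.H95.L1.Rgs
import Pool.Agent.H75.AP.MertensB

/-!
[H14 L2 VV]  Products over the primes of the presieve.
-/

namespace Pool.Agent.H14.L2

open Finset Filter Pool.Agent.H95.FL Pool.Agent.H95.L1 Pool.Agent.H92.MM

/-- the sum of `1/p` over the primes below `x^a` -/
theorem sum_lt : ∃ C : ℝ, 0 < C ∧ ∀ (v : ℝ), 3 ≤ v → ∀ S : Finset ℕ,
    (∀ p ∈ S, p.Prime ∧ (p : ℝ) ≤ v) → ∑ p ∈ S, 1 / (p : ℝ) ≤ Real.log (Real.log v) + C := by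
  obtain ⟨C, hC, hM⟩ := Pool.Agent.H75.AP.mertens_upper
  refine ⟨C, hC, fun v hv S hS => ?_⟩
  refine le_trans (Finset.sum_le_sum_of_subset_of_nonneg ?_ fun p _ _ => by positivity) (hM v hv)
  intro p hp
  rw [Pool.Agent.H75.AP.MertB.mem_PI le_rfl]
  exact ⟨(hS p hp).1, by exact_mod_cast (hS p hp).1.pos, (hS p hp).2⟩

theorem one_sub_ge (t : ℝ) (h0 : 0 ≤ t) (h1 : t ≤ 1 / 2) : Real.exp (-(2 * t)) ≤ 1 - t := by
  have h2 : Real.exp (-(2 * t)) * Real.exp (2 * t) = 1 := by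
    rw [← Real.exp_add, neg_add_cancel, Real.exp_zero]
  have h3 := Real.add_one_le_exp (2 * t)
  have h4 : 1 ≤ (1 - t) * Real.exp (2 * t) := by
    have h5 : (1 - t) * (2 * t + 1) ≤ (1 - t) * Real.exp (2 * t) :=
      mul_le_mul_of_nonneg_left h3 (by linarith)
    nlinarith
  exact le_of_mul_le_mul_right (h2.trans_le h4) (Real.exp_pos _)

theorem vv_ge : ∃ C : ℝ, 0 < C ∧ ∀ (K : ℕ) (v : ℝ), 3 ≤ v → ∀ S : Finset ℕ,
    (∀ p ∈ S, p.Prime ∧ 2 * K ≤ p ∧ (p : ℝ) ≤ v) →
    1 / (C * Real.log v) ^ (2 * K) ≤ vv (fun p => (K : ℝ) / p) S := by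
  obtain ⟨C, hC, hM⟩ := sum_lt
  refine ⟨Real.exp C, Real.exp_pos C, fun K v hv S hS => ?_⟩
  have hlog : 1 ≤ Real.log v := by
    rw [Real.le_log_iff_exp_le (by linarith)]
    linarith [Real.exp_one_lt_d9]
  have h1 := hM v hv S fun p hp => ⟨(hS p hp).1, (hS p hp).2.2⟩
  unfold vv
  have h2 : ∏ p ∈ S, Real.exp (-(2 * ((K : ℝ) / p))) ≤ ∏ p ∈ S, (1 - (K : ℝ) / p) := by
    refine Finset.prod_le_prod (fun p _ => (Real.exp_pos _).le) fun p hp => ?_
    have hp0 : (0 : ℝ) < p := by exact_mod_cast (hS p hp).1.pos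
    have h3 : (2 * K : ℝ) ≤ p := by exact_mod_cast (hS p hp).2.1
    apply one_sub_ge
    · positivity
    · rw [div_le_iff₀ hp0]
      linarith
  refine le_trans ?_ h2
  rw [← Real.exp_sum]
  have h3 : ∑ p ∈ S, -(2 * ((K : ℝ) / p)) = -(((2 * K : ℕ) : ℝ) * ∑ p ∈ S, 1 / (p : ℝ)) := by
    rw [Finset.mul_sum, ← Finset.sum_neg_distrib]
    refine Finset.sum_congr rfl fun p _ => ?_
    push_cast
    ring
  rw [h3]
  have h4 : (Real.exp C * Real.log v) ^ (2 * K) =
      Real.exp (((2 * K : ℕ) : ℝ) * (C + Real.log (Real.log v))) := by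
    rw [Real.exp_nat_mul, Real.exp_add, Real.exp_log (by linarith)]
  rw [h4, one_div, ← Real.exp_neg]
  apply Real.exp_le_exp.2
  have h5 : (0 : ℝ) ≤ ((2 * K : ℕ) : ℝ) := Nat.cast_nonneg _
  have h6 := mul_le_mul_of_nonneg_left h1 h5
  have h7 : Real.log (Real.log v) + C = C + Real.log (Real.log v) := add_comm _ _
  rw [h7] at h6
  linarith

theorem pr_le : ∃ C : ℝ, 0 < C ∧ ∀ a : ℝ, 0 < a → a ≤ 1 → ∀ᶠ x : ℝ in atTop,
    0 < pr x a ∧ pr x a ≤ C := by
  obtain ⟨C, hC, hv⟩ := vv_ge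
  obtain ⟨C1, hC1, hM⟩ := sum_lt
  refine ⟨Real.exp (C1 + 2), Real.exp_pos _, fun a ha ha1 => ?_⟩
  have h1 : ∀ᶠ x : ℝ in atTop, 3 ≤ x ^ a := (tendsto_rpow_atTop ha).eventually_ge_atTop 3
  filter_upwards [h1, eventually_ge_atTop (3 : ℝ)] with x hx3 hx
  have hx0 : 0 < x := by linarith
  have hlogx : 1 ≤ Real.log x := by
    rw [Real.le_log_iff_exp_le (by linarith)]
    linarith [Real.exp_one_lt_d9]
  have hlogv : 1 ≤ Real.log (x ^ a) := by
    rw [Real.le_log_iff_exp_le (by linarith)]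
    linarith [Real.exp_one_lt_d9]
  have hloga : Real.log (x ^ a) ≤ Real.log x := by
    rw [Real.log_rpow hx0]
    nlinarith
  set S := (range ⌈x ^ a⌉₊).filter Nat.Prime with hS
  have hmem : ∀ p ∈ S, p.Prime ∧ (p : ℝ) ≤ x ^ a := by
    intro p hp
    rw [hS, Finset.mem_filter, Finset.mem_range, Nat.lt_ceil] at hp
    exact ⟨hp.2, hp.1.le⟩
  have hs := hM (x ^ a) hx3 S hmem
  have hpos : ∀ p ∈ S, 0 < 1 - 1 / (p : ℝ) := by
    intro p hp
    have h2 : (2 : ℝ) ≤ p := by exact_mod_cast (hmem p hp).1.two_le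
    have h3 : 1 / (p : ℝ) ≤ 1 / 2 := one_div_le_one_div_of_le (by norm_num) h2
    linarith
  have hprod : 0 < ∏ p ∈ S, (1 - 1 / (p : ℝ)) := Finset.prod_pos hpos
  have hsq : ∀ n : ℕ, ∑ k ∈ range n, (if 2 ≤ k then 1 / ((k : ℝ) * (k - 1)) else 0) ≤
      1 - (if 2 ≤ n then 1 / ((n : ℝ) - 1) else 1) := by
    intro n
    induction n with
    | zero => norm_num
    | succ n ih =>
      rw [Finset.sum_range_succ]
      rcases Nat.lt_or_ge n 2 with hn | hn
      · interval_cases n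
        · norm_num
        · norm_num
      · rw [if_pos hn] at ih ⊢
        rw [if_pos (by omega : 2 ≤ n + 1)]
        have hn2 : (2 : ℝ) ≤ n := by exact_mod_cast hn
        have h4 : 1 / ((n : ℝ) * (n - 1)) = 1 / ((n : ℝ) - 1) - 1 / n := by
          have : (n : ℝ) - 1 ≠ 0 := by linarith
          field_simp
          ring
        have h5 : (((n + 1 : ℕ) : ℝ) - 1) = n := by push_cast; ring
        rw [h4, h5]
        linarith
  have hinv : (∏ p ∈ S, (1 - 1 / (p : ℝ)))⁻¹ ≤ Real.exp (C1 + 1) * Real.log (x ^ a) := by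
    rw [← Finset.prod_inv_distrib]
    have h2 : ∏ p ∈ S, (1 - 1 / (p : ℝ))⁻¹ ≤
        ∏ p ∈ S, Real.exp (1 / (p : ℝ) + 1 / ((p : ℝ) * (p - 1))) := by
      refine Finset.prod_le_prod (fun p hp => (inv_pos.2 (hpos p hp)).le) fun p hp => ?_
      have hp2 : (2 : ℝ) ≤ p := by exact_mod_cast (hmem p hp).1.two_le
      have h3 : (1 - 1 / (p : ℝ))⁻¹ = (1 / (p : ℝ) + 1 / ((p : ℝ) * (p - 1))) + 1 := by
        have : (p : ℝ) - 1 ≠ 0 := by linarith
        have : (p : ℝ) ≠ 0 := by linarith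
        field_simp
        ring
      rw [h3]
      exact Real.add_one_le_exp _
    refine h2.trans ?_
    rw [← Real.exp_sum, Finset.sum_add_distrib]
    have h3 : ∑ p ∈ S, 1 / ((p : ℝ) * (p - 1)) ≤ 1 := by
      have h4 : ∑ p ∈ S, 1 / ((p : ℝ) * (p - 1)) ≤
          ∑ k ∈ range ⌈x ^ a⌉₊, (if 2 ≤ k then 1 / ((k : ℝ) * (k - 1)) else 0) := by
        rw [hS, Finset.sum_filter]
        refine Finset.sum_le_sum fun k _ => ?_
        by_cases hk : k.Prime
        · rw [if_pos hk, if_pos hk.two_le]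
        · rw [if_neg hk]
          split_ifs with h5
          · have : (2 : ℝ) ≤ k := by exact_mod_cast h5
            exact div_nonneg zero_le_one (mul_nonneg (by linarith) (by linarith))
          · exact le_rfl
      refine h4.trans ((hsq _).trans ?_)
      split_ifs with h5
      · have : (2 : ℝ) ≤ (⌈x ^ a⌉₊ : ℝ) := by exact_mod_cast h5
        have h6 : 0 ≤ 1 / ((⌈x ^ a⌉₊ : ℝ) - 1) := div_nonneg zero_le_one (by linarith)
        linarith
      · norm_num
    calc Real.exp (∑ p ∈ S, 1 / (p : ℝ) + ∑ p ∈ S, 1 / ((p : ℝ) * (p - 1)))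
        ≤ Real.exp ((C1 + 1) + Real.log (Real.log (x ^ a))) := by
          apply Real.exp_le_exp.2
          linarith
      _ = Real.exp (C1 + 1) * Real.log (x ^ a) := by
          rw [Real.exp_add, Real.exp_log (by linarith)]
  unfold pr
  refine ⟨by positivity, ?_⟩
  rw [← hS, one_div, mul_inv]
  calc (Real.log x)⁻¹ * (∏ p ∈ S, (1 - 1 / (p : ℝ)))⁻¹
      ≤ (Real.log x)⁻¹ * (Real.exp (C1 + 1) * Real.log x) := by
        apply mul_le_mul_of_nonneg_left _ (by positivity)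
        refine hinv.trans ?_
        exact mul_le_mul_of_nonneg_left hloga (Real.exp_pos _).le
    _ = Real.exp (C1 + 1) := by
        field_simp
    _ ≤ Real.exp (C1 + 2) := Real.exp_le_exp.2 (by linarith)

/-- primes below `x^a`: those dividing the primorial and those of the presieve -/
theorem prime_split (x a : ℝ) (w : ℕ) (hw : (w : ℝ) < x ^ a) :
    ∏ p ∈ (range ⌈x ^ a⌉₊).filter Nat.Prime, (1 - 1 / (p : ℝ)) =
      ((primorial w).totient : ℝ) / primorial w * ∏ p ∈ PP x a (primorial w), (1 - 1 / (p : ℝ)) := by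
  rw [← Finset.prod_filter_mul_prod_filter_not ((range ⌈x ^ a⌉₊).filter Nat.Prime)
    (fun p => p ∣ primorial w)]
  congr 1
  · have h1 : ((range ⌈x ^ a⌉₊).filter Nat.Prime).filter (fun p => p ∣ primorial w) =
        (range (w + 1)).filter Nat.Prime := by
      ext p
      rw [Finset.mem_filter, Finset.mem_filter, Finset.mem_filter, Finset.mem_range,
        Finset.mem_range, Nat.lt_ceil]
      constructor
      · rintro ⟨⟨h1, h2⟩, h3⟩
        exact ⟨by have := h2.dvd_primorial_iff.1 h3; omega, h2⟩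
      · rintro ⟨h1, h2⟩
        refine ⟨⟨lt_of_le_of_lt ?_ hw, h2⟩, h2.dvd_primorial_iff.2 (by omega)⟩
        exact_mod_cast (by omega : p ≤ w)
    rw [h1]
    have h2 : ((primorial w).totient : ℝ) = ∏ p ∈ (range (w + 1)).filter Nat.Prime, ((p : ℝ) - 1) :=
      prod_totient _ fun p hp => (Finset.mem_filter.1 hp).2
    have h3 : ((primorial w : ℕ) : ℝ) = ∏ p ∈ (range (w + 1)).filter Nat.Prime, (p : ℝ) := by
      unfold primorial
      push_cast
      rfl
    rw [h2, h3, ← Finset.prod_div_distrib]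
    refine Finset.prod_congr rfl fun p hp => ?_
    have hp0 : (p : ℝ) ≠ 0 := by
      have := (Finset.mem_filter.1 hp).2.pos
      positivity
    field_simp
  · unfold PP
    rw [Finset.filter_filter]

theorem pr_eq (x a : ℝ) (w K : ℕ) (hw : (w : ℝ) < x ^ a) (hK : 1 ≤ K) (hwK : K ≤ w)
    (hx : 1 < x) :
    1 / (Real.log x * (primorial w).totient) * vv (gg (K - 1)) (PP x a (primorial w)) =
      pr x a * (1 / primorial w * vv (fun p => (K : ℝ) / p) (PP x a (primorial w))) := by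
  have hW : (0 : ℝ) < primorial w := by exact_mod_cast primorial_pos w
  have hphi : (0 : ℝ) < (primorial w).totient := by
    exact_mod_cast Nat.totient_pos.2 (primorial_pos w)
  have hL : 0 < Real.log x := Real.log_pos hx
  have hmem : ∀ p ∈ PP x a (primorial w), p.Prime ∧ w < p := by
    intro p hp
    have h1 := mem_PP.1 hp
    refine ⟨h1.1, ?_⟩
    by_contra h2
    exact h1.2.1 (h1.1.dvd_primorial_iff.2 (by omega))
  have hP1 : 0 < ∏ p ∈ PP x a (primorial w), (1 - 1 / (p : ℝ)) := by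
    refine Finset.prod_pos fun p hp => ?_
    have h2 : (2 : ℝ) ≤ p := by exact_mod_cast (hmem p hp).1.two_le
    have h3 : 1 / (p : ℝ) ≤ 1 / 2 := one_div_le_one_div_of_le (by norm_num) h2
    linarith
  have hvv : vv (fun p => (K : ℝ) / p) (PP x a (primorial w)) =
      vv (gg (K - 1)) (PP x a (primorial w)) * ∏ p ∈ PP x a (primorial w), (1 - 1 / (p : ℝ)) := by
    unfold vv
    rw [← Finset.prod_mul_distrib]
    refine Finset.prod_congr rfl fun p hp => ?_
    have h2 : (2 : ℝ) ≤ p := by exact_mod_cast (hmem p hp).1.two_le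
    have h3 : (p : ℝ) - 1 ≠ 0 := by linarith
    have h4 : (p : ℝ) ≠ 0 := by linarith
    unfold gg
    rw [Nat.cast_sub hK]
    push_cast
    field_simp
    ring
  unfold pr
  rw [prime_split x a w hw, hvv]
  field_simp

end Pool.Agent.H14.L2
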