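import Pool.Agent.H14.L2.Ar
import Pool.Agent.H14.L2.Sv
import Pool.Agent.H14.L2.Vv
import Pool.Agent.H21.SH.Mm
import Pool.Agent.H95.L1.Glim
import Pool.Agent.H95.L1.Win
import Pool.Agent.H95.L1.One

/-!
[H14 L2 PRI]  The law (L2): small monomials over the primes `N + h j0`.
-/

namespace Pool.Agent.H14.L2

open Finset Filter Topology Pool.Agent.H95.FL Pool.Agent.H95.L1 Pool.Agent.H92.MM Pool.Agent.H21.MT
  Pool.Agent.H21.SH

theorem gg_bound (K : ℕ) (hK : 1 ≤ K) (p : ℕ) (hp : p.Prime) :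
    0 ≤ gg (K - 1) p ∧ gg (K - 1) p ≤ 2 * K / p := by
  have h2 : (2 : ℝ) ≤ p := by exact_mod_cast hp.two_le
  have hK1 : (1 : ℝ) ≤ K := by exact_mod_cast hK
  unfold gg
  rw [Nat.cast_sub hK]
  push_cast
  constructor
  · exact div_nonneg (by linarith) (by linarith)
  · rw [div_le_div_iff₀ (by linarith) (by linarith)]
    nlinarith

theorem ev_pow (c : ℝ) (n : ℕ) (e : ℝ) (he : 0 < e) :
    ∀ᶠ x : ℝ in atTop, c * (Real.log x) ^ n ≤ e * x := by
  have h := isLittleO_log_rpow_rpow_atTop (s := 1) (n : ℝ) one_pos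
  have hc : 0 < e / (|c| + 1) := by positivity
  filter_upwards [h.bound hc, eventually_ge_atTop (1 : ℝ)] with x hx hx1
  have hL : 0 ≤ Real.log x := Real.log_nonneg hx1
  rw [Real.rpow_natCast, Real.norm_of_nonneg (by positivity), Real.rpow_one,
    Real.norm_of_nonneg (by linarith)] at hx
  have h1 : 0 ≤ (Real.log x) ^ n := by positivity
  calc c * (Real.log x) ^ n ≤ (|c| + 1) * (Real.log x) ^ n :=
        mul_le_mul_of_nonneg_right (by linarith [le_abs_self c]) h1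
    _ ≤ (|c| + 1) * (e / (|c| + 1) * x) := mul_le_mul_of_nonneg_left hx (by positivity)
    _ = e * x := by
        have : |c| + 1 ≠ 0 := by positivity
        field_simp

/-- the error sum of the Bombieri-Vinogradov theorem -/
theorem err_le (CS : ℝ) (hCS : 1 ≤ CS)
    (hsf : ∀ (D : ℕ) (U : ℝ), 3 ≤ U →
      ∑ n ∈ SF U, (D : ℝ) ^ n.primeFactors.card / n.totient ≤ (CS * Real.log U) ^ (2 * D))
    (K J : ℕ) (x U : ℝ) (hx : 3 ≤ x) (hU : 3 ≤ U) (hUx : U ≤ x) :
    2 * (Real.sqrt ((2 * x * (Real.log x) ^ (J + 2)) *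
      (2 * x * (Real.log x) ^ J / (Real.log x) ^ (2 * (K ^ 2 + 2 * K + 2)))) *
      Real.sqrt (∑ n ∈ SF U, ((K ^ 2 : ℕ) : ℝ) ^ n.primeFactors.card / n.totient)) /
        ((Real.log x) ^ J * Real.log x) ≤
      4 * x * CS ^ (K ^ 2) / (Real.log x) ^ (2 * K + 2) := by
  have hL : 1 ≤ Real.log x := by
    rw [Real.le_log_iff_exp_le (by linarith)]
    linarith [Real.exp_one_lt_d9]
  obtain ⟨Lx, hLx⟩ : ∃ Lx, Lx = Real.log x := ⟨_, rfl⟩
  have hL0 : 0 < Lx := by rw [hLx]; linarith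
  have h1 : Real.sqrt (∑ n ∈ SF U, ((K ^ 2 : ℕ) : ℝ) ^ n.primeFactors.card / n.totient) ≤
      (CS * Lx) ^ (K ^ 2) := by
    have h2 := hsf (K ^ 2) U hU
    have hlogU : Real.log U ≤ Lx := by
      rw [hLx]
      exact Real.log_le_log (by linarith) hUx
    have hlogU0 : 0 ≤ Real.log U := Real.log_nonneg (by linarith)
    have h3 : (CS * Real.log U) ^ (2 * K ^ 2) ≤ ((CS * Lx) ^ (K ^ 2)) ^ 2 := by
      rw [← pow_mul, mul_comm (K ^ 2) 2]
      exact pow_le_pow_left₀ (by positivity)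
        (mul_le_mul_of_nonneg_left hlogU (by linarith)) _
    calc Real.sqrt (∑ n ∈ SF U, ((K ^ 2 : ℕ) : ℝ) ^ n.primeFactors.card / n.totient)
        ≤ Real.sqrt (((CS * Lx) ^ (K ^ 2)) ^ 2) := Real.sqrt_le_sqrt (h2.trans h3)
      _ = (CS * Lx) ^ (K ^ 2) := Real.sqrt_sq (by positivity)
  have h2 : (2 * x * Lx ^ (J + 2)) * (2 * x * Lx ^ J / Lx ^ (2 * (K ^ 2 + 2 * K + 2))) =
      (2 * x * Lx ^ (J + 1) / Lx ^ (K ^ 2 + 2 * K + 2)) ^ 2 := by
    rw [div_pow, mul_pow, mul_pow, ← pow_mul, ← pow_mul, mul_comm 2 (K ^ 2 + 2 * K + 2)]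
    rw [mul_div_assoc']
    congr 1
    ring
  rw [← hLx, h2, Real.sqrt_sq (by positivity)]
  rw [div_le_iff₀ (by positivity)]
  calc 2 * (2 * x * Lx ^ (J + 1) / Lx ^ (K ^ 2 + 2 * K + 2) *
        Real.sqrt (∑ n ∈ SF U, ((K ^ 2 : ℕ) : ℝ) ^ n.primeFactors.card / n.totient))
      ≤ 2 * (2 * x * Lx ^ (J + 1) / Lx ^ (K ^ 2 + 2 * K + 2) * (CS * Lx) ^ (K ^ 2)) := by
        apply mul_le_mul_of_nonneg_left _ (by norm_num)
        exact mul_le_mul_of_nonneg_left h1 (by positivity)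
    _ = 4 * x * CS ^ (K ^ 2) / Lx ^ (2 * K + 2) * (Lx ^ J * Lx) := by
        rw [mul_pow]
        have h3 : Lx ^ (K ^ 2 + 2 * K + 2) = Lx ^ (K ^ 2) * Lx ^ (2 * K + 2) := by
          rw [← pow_add]
          ring
        rw [h3]
        field_simp
        ring

theorem prime_key (η Θ Λ C0 : ℝ) (hη1 : η ≤ 1 / 8) (hΛ : 0 < Λ) (hC0 : 0 < C0)
    {ι : Type} [Fintype ι] [DecidableEq ι] [Nonempty ι] (a : ℝ) (L : ℕ) (ha : 0 < a)
    (ha1 : a ≤ 1 / 20) (hpr : ∀ᶠ x : ℝ in atTop, 0 < pr x a ∧ pr x a ≤ C0)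
    (hΛΘ : 2 * C0 * Real.exp (-(Λ / a)) ≤ Real.exp (-(Θ / a)) / 2)
    (h : ι → ℕ) (w b : ℕ) (hb : ∀ j, Nat.Coprime (b + h j) (primorial w))
    (hwK : 2 * Fintype.card ι ≤ w)
    (hwd : ∀ p : ℕ, p.Prime → w < p → ∀ i j, i ≠ j → ¬ (p : ℤ) ∣ (h i : ℤ) - h j)
    (hSand : ∀ᶠ x : ℝ in atTop, ∃ fl fu : Finset ℕ → ℝ,
      Sand (Fintype.card ι) (gg (Fintype.card ι - 1)) (PP x a (primorial w)) (x ^ (1 / 8 : ℝ))
        (Real.exp (-(Λ / a))) fl fu)
    (j0 : ι) (A : ι → Fin L → ℕ) (hA0 : ∀ i, A j0 i = 0) (hsl : sl a L A ≤ η) :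
    ∀ᶠ x : ℝ in atTop, |Av x a h (primorial w) b
      (fun N => sm x a L h A N * (if (N + h j0).Prime then 1 else 0)) - sv L A * pr x a| ≤
        Real.exp (-(Θ / a)) := by
  classical
  obtain ⟨CV, hCV, hvv⟩ := vv_ge
  obtain ⟨CS, hCS, hsf⟩ := sf_sum
  obtain ⟨K, hK⟩ : ∃ K, K = Fintype.card ι := ⟨_, rfl⟩
  have hK1 : 1 ≤ K := hK ▸ Fintype.card_pos
  rw [← hK] at hSand hwK
  obtain ⟨e, hedef⟩ : ∃ e, e = min (1 / 10) (Real.exp (-(Θ / a)) / (2 * (14 * C0 + 6))) := ⟨_, rfl⟩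
  have he0 : 0 < e := by
    rw [hedef]
    exact lt_min (by norm_num) (by positivity)
  have he1 : e ≤ 1 / 10 := by rw [hedef]; exact min_le_left _ _
  have he2 : e * (14 * C0 + 6) ≤ Real.exp (-(Θ / a)) / 2 := by
    have h1 : e ≤ Real.exp (-(Θ / a)) / (2 * (14 * C0 + 6)) := by rw [hedef]; exact min_le_right _ _
    calc e * (14 * C0 + 6) ≤ Real.exp (-(Θ / a)) / (2 * (14 * C0 + 6)) * (14 * C0 + 6) :=
          mul_le_mul_of_nonneg_right h1 (by positivity)
      _ = Real.exp (-(Θ / a)) / 2 := by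
          field_simp
  obtain ⟨J, hJ⟩ := up_vp (1 / 8) (by norm_num) (by norm_num) (2 * (K ^ 2 + 2 * K + 2))
  have hWpos : 0 < primorial w := primorial_pos w
  have hW0 : (0 : ℝ) < primorial w := by exact_mod_cast hWpos
  obtain ⟨W, hWd⟩ : ∃ W : ℝ, W = (primorial w : ℝ) := ⟨_, rfl⟩
  rw [← hWd] at hW0
  have hGA := GA_tendsto (ι := ι) a ha L A
  have hGA' : ∀ᶠ x : ℝ in atTop, |GA (TI x a L) A - sv L A| ≤ e := by
    have h1 := (Metric.tendsto_nhds.1 hGA) e he0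
    filter_upwards [h1] with x hx
    rw [Real.dist_eq] at hx
    exact hx.le
  have hsv : 0 ≤ sv L A ∧ sv L A ≤ 1 := by
    unfold sv
    have hl2 : 0 ≤ Real.log 2 := Real.log_nonneg (by norm_num)
    have hl2' : Real.log 2 ≤ 1 := by
      have := Real.log_two_lt_d9
      linarith
    constructor
    · exact prod_nonneg fun j _ => prod_nonneg fun i _ => by positivity
    · refine prod_le_one (fun j _ => prod_nonneg fun i _ => by positivity) fun j _ => ?_
      refine prod_le_one (fun i _ => by positivity) fun i _ => ?_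
      rw [div_le_one (by exact_mod_cast Nat.factorial_pos _)]
      have h1 : Real.log 2 ^ A j i ≤ 1 := pow_le_one₀ hl2 hl2'
      have h2 : (1 : ℝ) ≤ ((A j i).factorial : ℝ) := by
        exact_mod_cast Nat.factorial_pos _
      linarith
  have t1 : Tendsto (fun x : ℝ => x ^ a) atTop atTop := tendsto_rpow_atTop ha
  have t2 : Tendsto (fun x : ℝ => x ^ (1 / 8 : ℝ)) atTop atTop := tendsto_rpow_atTop (by norm_num)
  filter_upwards [hJ (h j0), conv J (2 * K + 1) (h j0) e he0 (by linarith), mm_sharp J e he0,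
    mass_XG, mass_ge, wN_ap, wN_mass, hGA', hpr, hSand, t1.eventually_gt_atTop (w : ℝ),
    t1.eventually_ge_atTop (3 : ℝ), t1.eventually_ge_atTop (2 / a / e),
    t2.eventually_ge_atTop (3 : ℝ), t2.eventually_ge_atTop W, eventually_ge_atTop (3 : ℝ),
    (Real.tendsto_log_atTop.eventually_ge_atTop (32 * W * CS ^ (K ^ 2) * CV ^ (2 * K) / e)),
    (Real.tendsto_log_atTop.eventually_ge_atTop (2000 * W * CV ^ (2 * K) / e)),
    ev_pow (8 * W * CV ^ (2 * K)) (2 * K) e he0, eventually_ge_atTop (8 / e)]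
    with x h1 h2 h3 h4 h5 h6 h7 h8 h9 h10 h11 h12 h13 h14 h15 h16 h17 h18 h19 h20
  have hx0 : 0 < x := by linarith
  have hx1 : 1 < x := by linarith
  have hL1 : 1 ≤ Real.log x := by
    rw [Real.le_log_iff_exp_le (by linarith)]
    linarith [Real.exp_one_lt_d9]
  have hok : Ok x a L h w b := ⟨hx1, ha, h11, by linarith, hb, hwd⟩
  obtain ⟨E, hE0, hUP, htriv, hsum⟩ := h1
  obtain ⟨fl, fu, hs⟩ := h10
  have hsl8 : x ^ sl a L A ≤ x ^ (1 / 8 : ℝ) :=
    Real.rpow_le_rpow_of_exponent_le hx1.le (by linarith)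
  have hsl0 : 0 ≤ sl a L A := by
    unfold sl
    exact sum_nonneg fun j _ => sum_nonneg fun i _ => by positivity
  have hsl1 : 1 ≤ x ^ sl a L A := Real.one_le_rpow hx1.le hsl0
  have h80 : 0 < x ^ (1 / 8 : ℝ) := by positivity
  have hq4 : x ^ (1 / 8 : ℝ) * x ^ (1 / 8 : ℝ) = x ^ (1 / 4 : ℝ) := by
    rw [← Real.rpow_add hx0]
    norm_num
  have hQ : (primorial w : ℝ) * (x ^ sl a L A * x ^ (1 / 8 : ℝ)) ≤ x ^ (1 / 2 - 1 / 8 : ℝ) := by
    rw [← hWd]
    calc W * (x ^ sl a L A * x ^ (1 / 8 : ℝ))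
        ≤ x ^ (1 / 8 : ℝ) * (x ^ (1 / 8 : ℝ) * x ^ (1 / 8 : ℝ)) := by
          apply mul_le_mul h15 _ (by positivity) h80.le
          exact mul_le_mul_of_nonneg_right hsl8 h80.le
      _ = x ^ (1 / 2 - 1 / 8 : ℝ) := by
          rw [← Real.rpow_add hx0, ← Real.rpow_add hx0]
          norm_num
  have hvp := sum_vp hok j0 A hA0 J (x ^ (1 / 2 - 1 / 8 : ℝ)) E hE0 hUP
    (2 * x * (Real.log x) ^ (J + 2))
    (2 * x * (Real.log x) ^ J / (Real.log x) ^ (2 * (K ^ 2 + 2 * K + 2))) (by positivity) htriv hsum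
    (x ^ (1 / 8 : ℝ)) (Real.exp (-(Λ / a))) h80.le fl fu (hK ▸ hs) hQ
  rw [← hK] at hvp
  have hGP := GP_le hok A (by linarith) e he0 (by linarith) (by
    rw [div_le_iff₀ he0] at h13
    linarith)
  have hU3 : 3 ≤ x ^ sl a L A * x ^ (1 / 8 : ℝ) := by nlinarith
  have hUx : x ^ sl a L A * x ^ (1 / 8 : ℝ) ≤ x := by
    calc x ^ sl a L A * x ^ (1 / 8 : ℝ) ≤ x ^ (1 / 8 : ℝ) * x ^ (1 / 8 : ℝ) :=
          mul_le_mul_of_nonneg_right hsl8 h80.le
      _ = x ^ (1 / 4 : ℝ) := hq4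
      _ ≤ x ^ (1 : ℝ) := Real.rpow_le_rpow_of_exponent_le hx1.le (by norm_num)
      _ = x := Real.rpow_one x
  have herr := err_le CS hCS hsf K J x _ h16 hU3 hUx
  -- the normalisation
  obtain ⟨V, hV⟩ : ∃ V, V = vv (fun p => (K : ℝ) / p) (PP x a (primorial w)) := ⟨_, rfl⟩
  have hVge : 1 / (CV * Real.log x) ^ (2 * K) ≤ V := by
    have h21 := hvv K (x ^ a) h12 (PP x a (primorial w)) (fun p hp => by
      have h22 := hok.mem_P hp
      exact ⟨h22.1, by omega, h22.2.1.le⟩)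
    rw [← hV] at h21
    refine le_trans ?_ h21
    have h23 : Real.log (x ^ a) ≤ Real.log x := by
      rw [Real.log_rpow hx0]
      nlinarith
    have h24 : 0 < Real.log (x ^ a) := Real.log_pos (by linarith)
    apply one_div_le_one_div_of_le (by positivity)
    exact pow_le_pow_left₀ (by positivity) (mul_le_mul_of_nonneg_left h23 hCV.le) _
  have hL0 : 0 < Real.log x := by linarith
  have hVpos : 0 < V := lt_of_lt_of_le (by positivity) hVge
  have hnm : nm x a (primorial w) K = mass x / W * V := by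
    rw [nm_eq, hV, hWd]
  obtain ⟨D, hD⟩ : ∃ D, D = mass x / W * V := ⟨_, rfl⟩
  have hm0 : 0 < mass x := by linarith
  have hD0 : 0 < D := by rw [hD]; positivity
  have hDge : x / (8 * W * CV ^ (2 * K) * (Real.log x) ^ (2 * K)) ≤ D := by
    rw [hD]
    calc x / (8 * W * CV ^ (2 * K) * (Real.log x) ^ (2 * K)) =
          (x / 8) / W * (1 / (CV * Real.log x) ^ (2 * K)) := by
          rw [mul_pow]
          field_simp
      _ ≤ mass x / W * V := by
          apply mul_le_mul _ hVge (by positivity) (by positivity)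
          exact div_le_div_of_nonneg_right h5 hW0.le
  obtain ⟨Lx, hLx⟩ : ∃ Lx, Lx = Real.log x := ⟨_, rfl⟩
  -- smallness
  have s8 : 2 * (Real.sqrt ((2 * x * (Real.log x) ^ (J + 2)) *
      (2 * x * (Real.log x) ^ J / (Real.log x) ^ (2 * (K ^ 2 + 2 * K + 2)))) *
      Real.sqrt (∑ n ∈ SF (x ^ sl a L A * x ^ (1 / 8 : ℝ)),
        ((K ^ 2 : ℕ) : ℝ) ^ n.primeFactors.card / n.totient)) /
        ((Real.log x) ^ J * Real.log x) ≤ e * D := by
    refine herr.trans (le_trans ?_ (mul_le_mul_of_nonneg_left hDge he0.le))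
    rw [← hLx] at h17 hL1 hL0 ⊢
    rw [div_le_iff₀ he0] at h17
    rw [mul_div_assoc', div_le_div_iff₀ (by positivity) (by positivity), pow_add]
    have h21 : 32 * W * CS ^ (K ^ 2) * CV ^ (2 * K) ≤ Lx ^ 2 * e := by
      refine h17.trans ?_
      have h30 : Lx * 1 ≤ Lx * Lx := mul_le_mul_of_nonneg_left hL1 hL0.le
      have h31 : Lx * 1 * e ≤ Lx * Lx * e := mul_le_mul_of_nonneg_right h30 he0.le
      calc Lx * e = Lx * 1 * e := by ring
        _ ≤ Lx * Lx * e := h31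
        _ = Lx ^ 2 * e := by ring
    calc 4 * x * CS ^ K ^ 2 * (8 * W * CV ^ (2 * K) * Lx ^ (2 * K))
        = (32 * W * CS ^ (K ^ 2) * CV ^ (2 * K)) * (x * Lx ^ (2 * K)) := by ring
      _ ≤ (Lx ^ 2 * e) * (x * Lx ^ (2 * K)) := mul_le_mul_of_nonneg_right h21 (by positivity)
      _ = e * x * (Lx ^ (2 * K) * Lx ^ 2) := by ring
  have s9 : (∑ N ∈ Win x, wN x N * sm x a L h A N) / (Real.log x) ^ (2 * K + 1) ≤ e * D := by
    have h21 := sum_wN hok A h6 h7.2 (by linarith)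
    have h22 : GA (TI x a L) A ≤ 2 := by
      have := (abs_le.1 h8).2
      linarith [hsv.2]
    have h23 : ∑ N ∈ Win x, wN x N * sm x a L h A N ≤ 248 * x := by
      refine h21.trans ?_
      have : 124 * x * GA (TI x a L) A ≤ 124 * x * 2 :=
        mul_le_mul_of_nonneg_left h22 (by positivity)
      linarith
    refine (div_le_div_of_nonneg_right h23 (by positivity)).trans
      (le_trans ?_ (mul_le_mul_of_nonneg_left hDge he0.le))
    rw [← hLx] at h18 hL1 hL0 ⊢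
    rw [div_le_iff₀ he0] at h18
    rw [mul_div_assoc', div_le_div_iff₀ (by positivity) (by positivity), pow_succ]
    have h24 : 248 * 8 * (W * CV ^ (2 * K)) ≤ Lx * e := by
      have : 0 ≤ W * CV ^ (2 * K) := by positivity
      nlinarith
    calc 248 * x * (8 * W * CV ^ (2 * K) * Lx ^ (2 * K))
        = (248 * 8 * (W * CV ^ (2 * K))) * (x * Lx ^ (2 * K)) := by ring
      _ ≤ (Lx * e) * (x * Lx ^ (2 * K)) := mul_le_mul_of_nonneg_right h24 (by positivity)
      _ = e * x * (Lx ^ (2 * K) * Lx) := by ring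
  have s10 : 1 ≤ e * D := by
    refine le_trans ?_ (mul_le_mul_of_nonneg_left hDge he0.le)
    rw [mul_div_assoc', le_div_iff₀ (by positivity), one_mul]
    exact h19
  -- the change of weights
  have hF0 : ∀ N, 0 ≤ sm x a L h A N := by
    intro N
    unfold sm
    exact prod_nonneg fun j _ => prod_nonneg fun i _ => Nat.cast_nonneg _
  have hFx : ∀ N ∈ Win x, sm x a L h A N ≤ x := by
    intro N _
    obtain ⟨r, hr1, hr2⟩ := hok.sm_fam A
    rw [hr1 N]
    calc ∑ k ∈ Fam (TI x a L) A, (if N % qk k = r k % qk k then (1 : ℝ) else 0)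
        ≤ ∑ k ∈ Fam (TI x a L) A, (1 : ℝ) := by
          refine sum_le_sum fun k _ => ?_
          split_ifs <;> norm_num
      _ = ((Fam (TI x a L) A).card : ℝ) := by simp
      _ ≤ x ^ sl a L A := hok.card_le A
      _ ≤ x ^ (1 : ℝ) := Real.rpow_le_rpow_of_exponent_le hx1.le (by linarith)
      _ = x := Real.rpow_one x
  have hconv := h2 (fun N => Adm x a h (primorial w) b N) (fun N => sm x a L h A N) hF0 hFx
  have hAv : Av x a h (primorial w) b
      (fun N => sm x a L h A N * (if (N + h j0).Prime then 1 else 0)) =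
      (∑ N ∈ (Tx x).filter (fun N => Adm x a h (primorial w) b N ∧ (N + h j0).Prime),
        gw x N * sm x a L h A N) / D := by
    unfold Av
    rw [← hK, hnm, ← hD]
    congr 1
    rw [← Finset.filter_filter, Finset.sum_filter (fun N => (N + h j0).Prime)]
    refine Finset.sum_congr ?_ fun N _ => ?_
    · exact Finset.filter_congr_decidable _ _ _
    · by_cases hNp : (N + h j0).Prime
      · simp only [if_pos hNp, mul_one]
      · simp only [if_neg hNp, mul_zero]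
  rw [hAv]
  have hfin := fin_arith _ _ _ _ _ D (MM J x) (mass x) ((Real.log x) ^ (J + 1)) ((Real.log x) ^ J)
    (XG x) (Real.log x) ((primorial w).totient : ℝ) (vv (gg (K - 1)) (PP x a (primorial w))) W V
    (pr x a) (GA (TI x a L) A) (GP (TI x a L) A) (sv L A) e (Real.exp (-(Λ / a))) C0
    hD hD0 hm0 hW0 hVpos hL0 (by positivity) (pow_succ _ _)
    (by exact_mod_cast Nat.totient_pos.2 hWpos) he0 he1 (Real.exp_pos _).le
    (Real.exp_le_one_iff.2 (by
      have : 0 < Λ / a := by positivity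
      linarith))
    hconv hvp h3.1 h3.2 h4.1 (by
      have h21 : 1 ≤ mass x * e := by
        have h22 : 8 / e ≤ x := h20
        rw [div_le_iff₀ he0] at h22
        nlinarith
      nlinarith [h4.2])
    (by
      have h21 := pr_eq x a w K h11 hK1 (by omega) hx1
      rw [← hV, ← hWd] at h21
      exact h21)
    hGP.1 hGP.2 h8 hsv.1 hsv.2 h9.1 h9.2 (by rw [pow_succ]; exact s8) s9 s10
  refine hfin.trans ?_
  linarith

/-- **the law (L2)** -/
theorem prime_law (η Θ : ℝ) (hη : 0 < η) (hη1 : η ≤ 1 / 8) (hΘ : 0 < Θ) : PrimeLaw η Θ := by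
  classical
  obtain ⟨C0, hC0, hpr⟩ := pr_le
  obtain ⟨Λ, hΛd⟩ : ∃ Λ, Λ = Θ + Real.log (4 * C0 + 1) := ⟨_, rfl⟩
  have hlog : 0 ≤ Real.log (4 * C0 + 1) := Real.log_nonneg (by linarith)
  have hΛ : 0 < Λ := by rw [hΛd]; linarith
  obtain ⟨c0, hc0, hc01, hfund⟩ := fundamental (1 / 8) Λ (by norm_num) hΛ
  refine ⟨c0, hc0, ?_⟩
  intro ι _ _ _ a L ha haL hKa h hinj
  have hK : 1 ≤ Fintype.card ι := Fintype.card_pos
  have hK0 : (0 : ℝ) < Fintype.card ι := by exact_mod_cast hK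
  obtain ⟨w1, hw1, hfK⟩ := hfund (Fintype.card ι) hK
  refine ⟨w1 + (∑ j, h j + 1), ?_⟩
  intro w hw b hb
  have h2L : (1 : ℝ) ≤ 2 ^ L := one_le_pow₀ (by norm_num)
  have ha20 : a ≤ 1 / 20 := by nlinarith
  have hac : a ≤ c0 / Fintype.card ι := by
    rw [le_div_iff₀ hK0]
    linarith
  obtain ⟨x0, hx0, hS⟩ := hfK a ha hac
  have hwd : ∀ p : ℕ, p.Prime → w < p → ∀ i j, i ≠ j → ¬ (p : ℤ) ∣ (h i : ℤ) - h j := by
    intro p hp hwp i j hij hdvd
    have h1 : (h i : ℤ) - h j ≠ 0 := by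
      intro h0
      exact hij (hinj (by omega))
    have h2 := Int.le_of_dvd (abs_pos.2 h1) ((dvd_abs _ _).2 hdvd)
    have h3 : h i ≤ ∑ j, h j := Finset.single_le_sum (fun _ _ => Nat.zero_le _) (Finset.mem_univ i)
    have h4 : h j ≤ ∑ j, h j := Finset.single_le_sum (fun _ _ => Nat.zero_le _) (Finset.mem_univ j)
    have h5 : |(h i : ℤ) - h j| ≤ ((∑ j, h j : ℕ) : ℤ) := by
      rw [abs_le]
      constructor <;> omega
    have h6 : (p : ℤ) ≤ ((∑ j, h j : ℕ) : ℤ) := h2.trans h5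
    omega
  have hSand : ∀ᶠ x : ℝ in atTop, ∃ fl fu : Finset ℕ → ℝ,
      Sand (Fintype.card ι) (gg (Fintype.card ι - 1)) (PP x a (primorial w)) (x ^ (1 / 8 : ℝ))
        (Real.exp (-(Λ / a))) fl fu := by
    filter_upwards [eventually_ge_atTop x0] with x hx
    obtain ⟨fl, fu, hf⟩ := hS x hx (PP x a (primorial w)) (fun p hp => by
      have h1 := mem_PP.1 hp
      refine ⟨h1.1, ?_, h1.2.2.le⟩
      by_contra h2
      exact h1.2.1 (h1.1.dvd_primorial_iff.2 (by omega)))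
    exact ⟨fl, fu, hf (gg (Fintype.card ι - 1)) fun p hp =>
      gg_bound (Fintype.card ι) hK p (mem_PP.1 hp).1⟩
  have hΛΘ : 2 * C0 * Real.exp (-(Λ / a)) ≤ Real.exp (-(Θ / a)) / 2 := by
    have h1 : Real.exp (-(Λ / a)) ≤ Real.exp (-(Θ / a)) * (1 / (4 * C0 + 1)) := by
      have h2 : (1 / (4 * C0 + 1)) = Real.exp (-Real.log (4 * C0 + 1)) := by
        rw [Real.exp_neg, Real.exp_log (by linarith), one_div]
      rw [h2, ← Real.exp_add]
      apply Real.exp_le_exp.2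
      have h3 : Real.log (4 * C0 + 1) ≤ Real.log (4 * C0 + 1) / a := by
        rw [le_div_iff₀ ha]
        nlinarith
      rw [hΛd, add_div]
      linarith
    have h4 : 2 * C0 * (1 / (4 * C0 + 1)) ≤ 1 / 2 := by
      rw [mul_one_div, div_le_div_iff₀ (by linarith) (by norm_num)]
      linarith
    have h5 : 0 < Real.exp (-(Θ / a)) := Real.exp_pos _
    calc 2 * C0 * Real.exp (-(Λ / a)) ≤ 2 * C0 * (Real.exp (-(Θ / a)) * (1 / (4 * C0 + 1))) :=
          mul_le_mul_of_nonneg_left h1 (by linarith)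
      _ = (2 * C0 * (1 / (4 * C0 + 1))) * Real.exp (-(Θ / a)) := by ring
      _ ≤ (1 / 2) * Real.exp (-(Θ / a)) := mul_le_mul_of_nonneg_right h4 h5.le
      _ = _ := by ring
  have key : ∀ j0 : ι, ∀ A ∈ {A : ι → Fin L → ℕ | sl a L A ≤ η}, ∀ᶠ x : ℝ in atTop,
      (∀ i, A j0 i = 0) → |Av x a h (primorial w) b
        (fun N => sm x a L h A N * (if (N + h j0).Prime then 1 else 0)) - sv L A * pr x a| ≤
        Real.exp (-(Θ / a)) := by
    intro j0 A hA
    by_cases hA0 : ∀ i, A j0 i = 0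
    · filter_upwards [prime_key η Θ Λ C0 hη1 hΛ hC0 a L ha ha20 (hpr a ha (by linarith)) hΛΘ h w b
        hb (by omega) hwd hSand j0 A hA0 hA] with x hx _
      exact hx
    · exact Filter.Eventually.of_forall fun x h1 => absurd h1 hA0
  have key2 : ∀ᶠ x : ℝ in atTop, ∀ j0 : ι, ∀ A ∈ {A : ι → Fin L → ℕ | sl a L A ≤ η},
      (∀ i, A j0 i = 0) → |Av x a h (primorial w) b
        (fun N => sm x a L h A N * (if (N + h j0).Prime then 1 else 0)) - sv L A * pr x a| ≤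
        Real.exp (-(Θ / a)) := by
    rw [Filter.eventually_all]
    intro j0
    rw [Filter.eventually_all_finite (lev_finite a η ha L)]
    exact key j0
  filter_upwards [key2] with x hx j0 A hA0 hA
  convert hx j0 A hA hA0

end Pool.Agent.H14.L2
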