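import Pool.Agent.H14.L2.Up

/-!
[H14 L2 SM]  Primes in the presieved model: sums of the sandwich functions and of families of classes.
-/

namespace Pool.Agent.H14.L2

open Finset Pool.Agent.H95.FL

/-- the density of the other shifts at a prime -/
noncomputable def gg (K : ℕ) (p : ℕ) : ℝ := (K : ℝ) / ((p : ℝ) - 1)

open Classical in
theorem sub_DP {I : Type} (h : I → ℕ) (P : Finset ℕ) (N : ℕ) (S : Finset ℕ) (hS : S ⊆ P) :
    S ⊆ DP h P N ↔ ∀ p ∈ S, ∃ i, p ∣ N + h i := by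
  unfold DP
  constructor
  · intro h2 p hp
    exact (Finset.mem_filter.1 (h2 hp)).2
  · intro h3 p hp
    exact Finset.mem_filter.2 ⟨hS hp, h3 p hp⟩

open Classical in
theorem DP_sub {I : Type} (h : I → ℕ) (P : Finset ℕ) (N : ℕ) : DP h P N ⊆ P := by
  unfold DP
  exact Finset.filter_subset _ _

theorem val_DP {I : Type} (h : I → ℕ) (P : Finset ℕ) (N : ℕ) (f : Finset ℕ → ℝ) :
    Pool.Agent.H95.FL.val f (DP h P N) =
      ∑ S ∈ P.powerset, if S ⊆ DP h P N then f S else 0 := by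
  unfold Pool.Agent.H95.FL.val
  rw [← Finset.sum_filter]
  refine Finset.sum_congr ?_ fun _ _ => rfl
  ext S
  rw [Finset.mem_powerset, Finset.mem_filter, Finset.mem_powerset]
  exact ⟨fun h2 => ⟨h2.trans (DP_sub h P N), h2⟩, fun h2 => h2.2⟩

open Classical in
theorem sum_val {T : Finset ℕ} {ω : ℕ → ℝ} {h0 : ℕ} {X Q : ℝ} {E : ℕ → ℝ} (hT : UP T ω h0 X Q E)
    {I : Type} [Fintype I] [DecidableEq I] (h : I → ℕ) (W b q r : ℕ) (P : Finset ℕ)
    (hW : 0 < W) (hq : 0 < q) (h1 : Nat.Coprime W q)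
    (hP : ∀ p ∈ P, p.Prime ∧ ¬ p ∣ W ∧ ¬ p ∣ q)
    (hd : ∀ p ∈ P, ∀ i j, i ≠ j → ¬ (p : ℤ) ∣ (h i : ℤ) - h j)
    (hd0 : ∀ p ∈ P, ∀ i, ¬ (p : ℤ) ∣ (h i : ℤ) - h0)
    (hb : Nat.Coprime (b + h0) W) (hr : Nat.Coprime (r + h0) q)
    (f : Finset ℕ → ℝ) (hQ : ∀ S, S ⊆ P → f S ≠ 0 → ((W * q * ∏ p ∈ S, p : ℕ) : ℝ) ≤ Q) :
    |∑ N ∈ T.filter (fun N => N % W = b % W ∧ N % q = r % q), ω N * Pool.Agent.H95.FL.val f (DP h P N) -
      X / (W.totient * q.totient) * mean (gg (Fintype.card I)) P f| ≤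
      ∑ S ∈ P.powerset, |f S| * (Fintype.card I : ℝ) ^ S.card * E (W * q * ∏ p ∈ S, p) := by
  have e1 : ∑ N ∈ T.filter (fun N => N % W = b % W ∧ N % q = r % q),
      ω N * Pool.Agent.H95.FL.val f (DP h P N) =
      ∑ S ∈ P.powerset, f S * ∑ N ∈ T.filter (fun N => N % W = b % W ∧ N % q = r % q ∧
        ∀ p ∈ S, ∃ i, p ∣ N + h i), ω N := by
    simp_rw [val_DP, Finset.mul_sum]
    rw [Finset.sum_comm]
    refine Finset.sum_congr rfl fun S hS => ?_
    rw [Finset.mem_powerset] at hS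
    have e2 : T.filter (fun N => N % W = b % W ∧ N % q = r % q ∧ ∀ p ∈ S, ∃ i, p ∣ N + h i) =
        (T.filter (fun N => N % W = b % W ∧ N % q = r % q)).filter (fun N => S ⊆ DP h P N) := by
      rw [Finset.filter_filter]
      refine Finset.filter_congr fun N _ => ?_
      rw [sub_DP h P N S hS]
      tauto
    rw [e2]
    conv_rhs => rw [Finset.sum_filter]
    refine Finset.sum_congr rfl fun N _ => ?_
    split_ifs <;> ring
  have e3 : X / (W.totient * q.totient) * mean (gg (Fintype.card I)) P f =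
      ∑ S ∈ P.powerset, f S * ((Fintype.card I : ℝ) ^ S.card *
        (X / (W.totient * q.totient * ∏ p ∈ S, ((p : ℝ) - 1)))) := by
    unfold mean gg
    rw [Finset.mul_sum]
    refine Finset.sum_congr rfl fun S _ => ?_
    rw [Finset.prod_div_distrib, Finset.prod_const, div_mul_eq_div_div]
    ring
  rw [e1, e3, ← Finset.sum_sub_distrib]
  refine (Finset.abs_sum_le_sum_abs _ _).trans (Finset.sum_le_sum fun S hS => ?_)
  rw [Finset.mem_powerset] at hS
  rw [← mul_sub, abs_mul, mul_assoc |f S|]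
  by_cases hf : f S = 0
  · rw [hf]
    simp
  · exact mul_le_mul_of_nonneg_left (cnt hT h W b q r S hW hq h1 (fun p hp => hP p (hS hp))
      (fun p hp => hd p (hS hp)) (fun p hp => hd0 p (hS hp)) (hQ S hS hf) hb hr) (abs_nonneg _)

theorem rough_cnt {T : Finset ℕ} {ω : ℕ → ℝ} {h0 : ℕ} {X Q : ℝ} {E : ℕ → ℝ} (hT : UP T ω h0 X Q E)
    (hω : ∀ N ∈ T, 0 ≤ ω N) (hX : 0 ≤ X)
    {I : Type} [Fintype I] [DecidableEq I] (h : I → ℕ) (W b q r : ℕ) (P : Finset ℕ)
    (hW : 0 < W) (hq : 0 < q) (h1 : Nat.Coprime W q)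
    (hP : ∀ p ∈ P, p.Prime ∧ ¬ p ∣ W ∧ ¬ p ∣ q)
    (hd : ∀ p ∈ P, ∀ i j, i ≠ j → ¬ (p : ℤ) ∣ (h i : ℤ) - h j)
    (hd0 : ∀ p ∈ P, ∀ i, ¬ (p : ℤ) ∣ (h i : ℤ) - h0)
    (hb : Nat.Coprime (b + h0) W) (hr : Nat.Coprime (r + h0) q)
    (K : ℕ) (Y d : ℝ) (fl fu : Finset ℕ → ℝ)
    (hs : Sand K (gg (Fintype.card I)) P Y d fl fu) (hQ : (W : ℝ) * q * Y ≤ Q) :
    |∑ N ∈ T.filter (fun N => N % W = b % W ∧ N % q = r % q ∧ DP h P N = ∅), ω N -
      X / (W.totient * q.totient) * vv (gg (Fintype.card I)) P| ≤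
      d * (X / (W.totient * q.totient) * vv (gg (Fintype.card I)) P) +
      ∑ S ∈ P.powerset, (|fl S| + |fu S|) * (Fintype.card I : ℝ) ^ S.card *
        E (W * q * ∏ p ∈ S, p) := by
  have hXW : 0 ≤ X / (W.totient * q.totient : ℝ) := by positivity
  have hWq : (0 : ℝ) ≤ (W : ℝ) * q := by positivity
  have hQl : ∀ S, S ⊆ P → fl S ≠ 0 → ((W * q * ∏ p ∈ S, p : ℕ) : ℝ) ≤ Q := by
    intro S _ hf
    push_cast
    exact (mul_le_mul_of_nonneg_left (hs.lev_l S hf) hWq).trans hQ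
  have hQu : ∀ S, S ⊆ P → fu S ≠ 0 → ((W * q * ∏ p ∈ S, p : ℕ) : ℝ) ≤ Q := by
    intro S _ hf
    push_cast
    exact (mul_le_mul_of_nonneg_left (hs.lev_u S hf) hWq).trans hQ
  have a1 := abs_le.1 (sum_val hT h W b q r P hW hq h1 hP hd hd0 hb hr fl hQl)
  have a2 := abs_le.1 (sum_val hT h W b q r P hW hq h1 hP hd hd0 hb hr fu hQu)
  have hDP : ∀ N, DP h P N ⊆ P := fun N => DP_sub h P N
  have hl : ∑ N ∈ T.filter (fun N => N % W = b % W ∧ N % q = r % q), ω N * Pool.Agent.H95.FL.val fl (DP h P N) ≤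
      ∑ N ∈ T.filter (fun N => N % W = b % W ∧ N % q = r % q ∧ DP h P N = ∅), ω N := by
    rw [← Finset.sum_filter_add_sum_filter_not
      (T.filter (fun N => N % W = b % W ∧ N % q = r % q)) (fun N => DP h P N = ∅)]
    have b1 : ∑ N ∈ (T.filter (fun N => N % W = b % W ∧ N % q = r % q)).filter
        (fun N => ¬ DP h P N = ∅), ω N * Pool.Agent.H95.FL.val fl (DP h P N) ≤ 0 := by
      refine Finset.sum_nonpos fun N hN => ?_
      rw [Finset.mem_filter, Finset.mem_filter] at hN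
      exact mul_nonpos_of_nonneg_of_nonpos (hω N hN.1.1)
        (hs.val_l _ (hDP N) (Finset.nonempty_iff_ne_empty.2 hN.2))
    have b2 : ∑ N ∈ (T.filter (fun N => N % W = b % W ∧ N % q = r % q)).filter
        (fun N => DP h P N = ∅), ω N * Pool.Agent.H95.FL.val fl (DP h P N) =
        ∑ N ∈ T.filter (fun N => N % W = b % W ∧ N % q = r % q ∧ DP h P N = ∅), ω N := by
      rw [Finset.filter_filter]
      refine Finset.sum_congr (Finset.filter_congr fun N _ => by tauto) fun N hN => ?_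
      rw [Finset.mem_filter] at hN
      rw [hN.2.2.2]
      unfold Pool.Agent.H95.FL.val
      simp [hs.empty_l]
    linarith
  have hu : ∑ N ∈ T.filter (fun N => N % W = b % W ∧ N % q = r % q ∧ DP h P N = ∅), ω N ≤
      ∑ N ∈ T.filter (fun N => N % W = b % W ∧ N % q = r % q), ω N * Pool.Agent.H95.FL.val fu (DP h P N) := by
    rw [← Finset.sum_filter_add_sum_filter_not
      (T.filter (fun N => N % W = b % W ∧ N % q = r % q)) (fun N => DP h P N = ∅)]
    have b1 : 0 ≤ ∑ N ∈ (T.filter (fun N => N % W = b % W ∧ N % q = r % q)).filter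
        (fun N => ¬ DP h P N = ∅), ω N * Pool.Agent.H95.FL.val fu (DP h P N) := by
      refine Finset.sum_nonneg fun N hN => ?_
      rw [Finset.mem_filter, Finset.mem_filter] at hN
      exact mul_nonneg (hω N hN.1.1) (hs.val_u _ (hDP N))
    have b2 : ∑ N ∈ (T.filter (fun N => N % W = b % W ∧ N % q = r % q)).filter
        (fun N => DP h P N = ∅), ω N * Pool.Agent.H95.FL.val fu (DP h P N) =
        ∑ N ∈ T.filter (fun N => N % W = b % W ∧ N % q = r % q ∧ DP h P N = ∅), ω N := by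
      rw [Finset.filter_filter]
      refine Finset.sum_congr (Finset.filter_congr fun N _ => by tauto) fun N hN => ?_
      rw [Finset.mem_filter] at hN
      rw [hN.2.2.2]
      unfold Pool.Agent.H95.FL.val
      simp [hs.empty_u]
    linarith
  have m1 := mul_le_mul_of_nonneg_left hs.mean_l hXW
  have m2 := mul_le_mul_of_nonneg_left hs.mean_u hXW
  have hEpos : ∀ S ∈ P.powerset, ∀ f : Finset ℕ → ℝ, f S ≠ 0 →
      ((W * q * ∏ p ∈ S, p : ℕ) : ℝ) ≤ Q → 0 ≤ (Fintype.card I : ℝ) ^ S.card *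
        E (W * q * ∏ p ∈ S, p) := by
    intro S hS f hf hQS
    rw [Finset.mem_powerset] at hS
    exact (abs_nonneg _).trans (cnt hT h W b q r S hW hq h1 (fun p hp => hP p (hS hp))
      (fun p hp => hd p (hS hp)) (fun p hp => hd0 p (hS hp)) hQS hb hr)
  have s1 : ∑ S ∈ P.powerset, |fl S| * (Fintype.card I : ℝ) ^ S.card * E (W * q * ∏ p ∈ S, p) ≤
      ∑ S ∈ P.powerset, (|fl S| + |fu S|) * (Fintype.card I : ℝ) ^ S.card *
        E (W * q * ∏ p ∈ S, p) := by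
    refine Finset.sum_le_sum fun S hS => ?_
    by_cases hf : fu S = 0
    · rw [hf]
      simp
    · have := mul_nonneg (abs_nonneg (fu S)) (hEpos S hS fu hf (hQu S (Finset.mem_powerset.1 hS) hf))
      nlinarith
  have s2 : ∑ S ∈ P.powerset, |fu S| * (Fintype.card I : ℝ) ^ S.card * E (W * q * ∏ p ∈ S, p) ≤
      ∑ S ∈ P.powerset, (|fl S| + |fu S|) * (Fintype.card I : ℝ) ^ S.card *
        E (W * q * ∏ p ∈ S, p) := by
    refine Finset.sum_le_sum fun S hS => ?_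
    by_cases hf : fl S = 0
    · rw [hf]
      simp
    · have := mul_nonneg (abs_nonneg (fl S)) (hEpos S hS fl hf (hQl S (Finset.mem_powerset.1 hS) hf))
      nlinarith
  rw [abs_le]
  constructor
  · nlinarith [a1.1]
  · nlinarith [a2.2]

/-- families of residue classes -/
theorem poly {T : Finset ℕ} {ω : ℕ → ℝ} {h0 : ℕ} {X Q : ℝ} {E : ℕ → ℝ} (hT : UP T ω h0 X Q E)
    (hω : ∀ N ∈ T, 0 ≤ ω N) (hX : 0 ≤ X)
    {I : Type} [Fintype I] [DecidableEq I] (h : I → ℕ) (W b : ℕ) (P : Finset ℕ)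
    (hW : 0 < W) (hP : ∀ p ∈ P, p.Prime ∧ ¬ p ∣ W)
    (hd : ∀ p ∈ P, ∀ i j, i ≠ j → ¬ (p : ℤ) ∣ (h i : ℤ) - h j)
    (hd0 : ∀ p ∈ P, ∀ i, ¬ (p : ℤ) ∣ (h i : ℤ) - h0)
    (hb : Nat.Coprime (b + h0) W)
    (K : ℕ) (Y d : ℝ) (fl fu : Finset ℕ → ℝ)
    (hs : Sand K (gg (Fintype.card I)) P Y d fl fu)
    {κ : Type} (A : Finset κ) (q r : κ → ℕ) (c : κ → ℝ) (hq : ∀ k ∈ A, 0 < q k)
    (h1 : ∀ k ∈ A, Nat.Coprime W (q k)) (h2 : ∀ k ∈ A, ∀ p ∈ P, ¬ p ∣ q k)
    (hr : ∀ k ∈ A, Nat.Coprime (r k + h0) (q k))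
    (hQ : ∀ k ∈ A, (W : ℝ) * q k * Y ≤ Q) :
    |∑ N ∈ T.filter (fun N => N % W = b % W ∧ DP h P N = ∅),
        ω N * (∑ k ∈ A, if N % q k = r k % q k then c k else 0) -
      X / W.totient * vv (gg (Fintype.card I)) P * ∑ k ∈ A, c k / (q k).totient| ≤
      d * (X / W.totient * vv (gg (Fintype.card I)) P) * (∑ k ∈ A, |c k| / (q k).totient) +
      ∑ k ∈ A, |c k| * ∑ S ∈ P.powerset, (|fl S| + |fu S|) * (Fintype.card I : ℝ) ^ S.card *
        E (W * q k * ∏ p ∈ S, p) := by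
  have e1 : ∑ N ∈ T.filter (fun N => N % W = b % W ∧ DP h P N = ∅),
      ω N * (∑ k ∈ A, if N % q k = r k % q k then c k else 0) =
      ∑ k ∈ A, c k * ∑ N ∈ T.filter (fun N => N % W = b % W ∧ N % q k = r k % q k ∧
        DP h P N = ∅), ω N := by
    simp_rw [Finset.mul_sum]
    rw [Finset.sum_comm]
    refine Finset.sum_congr rfl fun k _ => ?_
    have e2 : T.filter (fun N => N % W = b % W ∧ N % q k = r k % q k ∧ DP h P N = ∅) =
        (T.filter (fun N => N % W = b % W ∧ DP h P N = ∅)).filter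
          (fun N => N % q k = r k % q k) := by
      rw [Finset.filter_filter]
      refine Finset.filter_congr fun N _ => ?_
      tauto
    rw [e2]
    conv_rhs => rw [Finset.sum_filter]
    refine Finset.sum_congr rfl fun N _ => ?_
    split_ifs <;> ring
  have e3 : X / W.totient * vv (gg (Fintype.card I)) P * ∑ k ∈ A, c k / (q k).totient =
      ∑ k ∈ A, c k * (X / (W.totient * (q k).totient) * vv (gg (Fintype.card I)) P) := by
    rw [Finset.mul_sum]
    refine Finset.sum_congr rfl fun k _ => ?_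
    rw [div_mul_eq_div_div X (W.totient : ℝ)]
    ring
  have e4 : d * (X / W.totient * vv (gg (Fintype.card I)) P) * (∑ k ∈ A, |c k| / (q k).totient) =
      ∑ k ∈ A, |c k| * (d * (X / (W.totient * (q k).totient) * vv (gg (Fintype.card I)) P)) := by
    rw [Finset.mul_sum]
    refine Finset.sum_congr rfl fun k _ => ?_
    rw [div_mul_eq_div_div X (W.totient : ℝ)]
    ring
  rw [e1, e3, e4, ← Finset.sum_sub_distrib, ← Finset.sum_add_distrib]
  refine (Finset.abs_sum_le_sum_abs _ _).trans (Finset.sum_le_sum fun k hk => ?_)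
  rw [← mul_sub, abs_mul, ← mul_add]
  exact mul_le_mul_of_nonneg_left (rough_cnt hT hω hX h W b (q k) (r k) P hW (hq k hk) (h1 k hk)
    (fun p hp => ⟨(hP p hp).1, (hP p hp).2, h2 k hk p hp⟩) hd hd0 hb (hr k hk) K Y d fl fu hs
    (hQ k hk)) (abs_nonneg _)

end Pool.Agent.H14.L2
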