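import Pool.Agent.H95.FL.Cl
import Pool.Agent.H95.FL.Ex

/-!
[H14 L2 UP]  Primes in the presieved model: counting in residue classes.

`ω` on the finite set `T` (its elements `N` have `N + h0` prime) is uniformly distributed in the residue classes
`c mod q` with `c + h0` coprime to `q ≤ Q`: mass `X`, error `E q`.  Everything here is the analog of `FL.Cn`, `FL.Sm`.
-/

namespace Pool.Agent.H14.L2

open Finset Pool.Agent.H95.FL

/-- `ω` on `T` is uniformly distributed in the classes `c mod q` with `c + h0` coprime to `q ≤ Q` -/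
def UP (T : Finset ℕ) (ω : ℕ → ℝ) (h0 : ℕ) (X Q : ℝ) (E : ℕ → ℝ) : Prop :=
  ∀ q c : ℕ, 0 < q → (q : ℝ) ≤ Q → Nat.Coprime (c + h0) q →
    |∑ N ∈ T.filter (fun N => N % q = c % q), ω N - X / q.totient| ≤ E q

theorem cop_congr {a b h q : ℕ} (h1 : a ≡ b [MOD q]) (h2 : Nat.Coprime (b + h) q) :
    Nat.Coprime (a + h) q := by
  have h3 : a + h ≡ b + h [MOD q] := h1.add_right h
  unfold Nat.Coprime at h2 ⊢
  rw [← h2]
  exact h3.gcd_eq

theorem cnt_one {T : Finset ℕ} {ω : ℕ → ℝ} {h0 : ℕ} {X Q : ℝ} {E : ℕ → ℝ} (hT : UP T ω h0 X Q E)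
    (W b q r m c : ℕ) (hW : 0 < W) (hq : 0 < q) (hm : 0 < m)
    (h1 : Nat.Coprime W q) (h2 : Nat.Coprime W m) (h3 : Nat.Coprime q m) (hc : c < m)
    (hQ : ((W * q * m : ℕ) : ℝ) ≤ Q) (hb : Nat.Coprime (b + h0) W) (hr : Nat.Coprime (r + h0) q)
    (hcc : Nat.Coprime (c + h0) m) :
    |∑ N ∈ T.filter (fun N => N % W = b % W ∧ N % q = r % q ∧ N % m = c), ω N -
      X / (W.totient * q.totient * m.totient)| ≤ E (W * q * m) := by
  obtain ⟨s, hs1, hs2⟩ := Nat.chineseRemainder h1 b r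
  have h4 : Nat.Coprime (W * q) m := Nat.Coprime.mul_left h2 h3
  obtain ⟨t, ht1, ht2⟩ := Nat.chineseRemainder h4 s c
  have ht3 : t ≡ b [MOD W] := (ht1.of_dvd (dvd_mul_right W q)).trans hs1
  have ht4 : t ≡ r [MOD q] := (ht1.of_dvd (dvd_mul_left q W)).trans hs2
  have hcop : Nat.Coprime (t + h0) (W * q * m) :=
    Nat.Coprime.mul_right (Nat.Coprime.mul_right (cop_congr ht3 hb) (cop_congr ht4 hr))
      (cop_congr ht2 hcc)
  have h5 := hT (W * q * m) t (by positivity) hQ hcop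
  have h6 : T.filter (fun N => N % (W * q * m) = t % (W * q * m)) =
      T.filter (fun N => N % W = b % W ∧ N % q = r % q ∧ N % m = c) := by
    apply Finset.filter_congr
    intro N _
    have e1 : N ≡ t [MOD (W * q * m)] ↔ N ≡ t [MOD (W * q)] ∧ N ≡ t [MOD m] :=
      (Nat.modEq_and_modEq_iff_modEq_mul h4).symm
    have e2 : N ≡ t [MOD (W * q)] ↔ N ≡ t [MOD W] ∧ N ≡ t [MOD q] :=
      (Nat.modEq_and_modEq_iff_modEq_mul h1).symm
    change N ≡ t [MOD (W * q * m)] ↔ _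
    rw [e1, e2]
    constructor
    · rintro ⟨⟨a1, a2⟩, a3⟩
      refine ⟨a1.trans ht3, a2.trans ht4, ?_⟩
      have a4 : N % m = c % m := a3.trans ht2
      rw [a4, Nat.mod_eq_of_lt hc]
    · rintro ⟨a1, a2, a3⟩
      refine ⟨⟨Nat.ModEq.trans a1 ht3.symm, Nat.ModEq.trans a2 ht4.symm⟩, ?_⟩
      have a4 : N ≡ c [MOD m] := by
        change N % m = c % m
        rw [a3, Nat.mod_eq_of_lt hc]
      exact a4.trans ht2.symm
  rw [h6] at h5
  have h7 : (((W * q * m).totient : ℕ) : ℝ) = W.totient * q.totient * m.totient := by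
    rw [Nat.totient_mul h4, Nat.totient_mul h1]
    push_cast
    ring
  rw [h7] at h5
  exact h5

theorem prod_cop (W : ℕ) (S : Finset ℕ) (hS : ∀ p ∈ S, p.Prime ∧ ¬ p ∣ W) :
    Nat.Coprime W (∏ p ∈ S, p) :=
  Nat.Coprime.prod_right fun p hp =>
    ((Nat.Prime.coprime_iff_not_dvd (hS p hp).1).2 (hS p hp).2).symm

theorem prod_totient (S : Finset ℕ) (hS : ∀ p ∈ S, p.Prime) :
    (((∏ p ∈ S, p).totient : ℕ) : ℝ) = ∏ p ∈ S, ((p : ℝ) - 1) := by
  induction S using Finset.induction_on with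
  | empty => simp
  | insert p S hpS ih =>
    have hp : p.Prime := hS p (Finset.mem_insert_self _ _)
    have hS' : ∀ r ∈ S, r.Prime := fun r hr => hS r (Finset.mem_insert_of_mem hr)
    have hco : Nat.Coprime p (∏ r ∈ S, r) := prod_cop p S fun r hr =>
      ⟨hS' r hr, fun h => hpS (((Nat.prime_dvd_prime_iff_eq (hS' r hr) hp).1 h) ▸ hr)⟩
    rw [Finset.prod_insert hpS, Finset.prod_insert hpS, Nat.totient_mul hco, Nat.totient_prime hp]
    push_cast
    rw [ih hS', Nat.cast_sub hp.one_le]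
    simp

open Classical in
theorem cnt {T : Finset ℕ} {ω : ℕ → ℝ} {h0 : ℕ} {X Q : ℝ} {E : ℕ → ℝ} (hT : UP T ω h0 X Q E)
    {I : Type} [Fintype I] [DecidableEq I] (h : I → ℕ) (W b q r : ℕ) (S : Finset ℕ)
    (hW : 0 < W) (hq : 0 < q) (h1 : Nat.Coprime W q)
    (hS : ∀ p ∈ S, p.Prime ∧ ¬ p ∣ W ∧ ¬ p ∣ q)
    (hd : ∀ p ∈ S, ∀ i j, i ≠ j → ¬ (p : ℤ) ∣ (h i : ℤ) - h j)
    (hd0 : ∀ p ∈ S, ∀ i, ¬ (p : ℤ) ∣ (h i : ℤ) - h0)
    (hQ : ((W * q * ∏ p ∈ S, p : ℕ) : ℝ) ≤ Q) (hb : Nat.Coprime (b + h0) W)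
    (hr : Nat.Coprime (r + h0) q) :
    |∑ N ∈ T.filter (fun N => N % W = b % W ∧ N % q = r % q ∧ ∀ p ∈ S, ∃ i, p ∣ N + h i), ω N -
      (Fintype.card I : ℝ) ^ S.card * (X / (W.totient * q.totient * ∏ p ∈ S, ((p : ℝ) - 1)))| ≤
      (Fintype.card I : ℝ) ^ S.card * E (W * q * ∏ p ∈ S, p) := by
  obtain ⟨A, hA, hAc, hAi⟩ := classes h S (fun p hp => (hS p hp).1) hd
  obtain ⟨m, hm⟩ : ∃ m, m = ∏ p ∈ S, p := ⟨_, rfl⟩
  have hm0 : 0 < m := hm ▸ Finset.prod_pos fun r hr => (hS r hr).1.pos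
  have hWm : Nat.Coprime W m := hm ▸ prod_cop W S fun p hp => ⟨(hS p hp).1, (hS p hp).2.1⟩
  have hqm : Nat.Coprime q m := hm ▸ prod_cop q S fun p hp => ⟨(hS p hp).1, (hS p hp).2.2⟩
  have hphi : (m.totient : ℝ) = ∏ p ∈ S, ((p : ℝ) - 1) :=
    hm ▸ prod_totient S fun p hp => (hS p hp).1
  rw [← hphi]
  rw [← hm] at hA hAi hQ ⊢
  have hone : ∀ c ∈ A, |∑ N ∈ T.filter (fun N => N % W = b % W ∧ N % q = r % q ∧ N % m = c), ω N -
      X / (W.totient * q.totient * m.totient)| ≤ E (W * q * m) := by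
    intro c hc
    have hcm : c < m := Finset.mem_range.1 (hA hc)
    refine cnt_one hT W b q r m c hW hq hm0 h1 hWm hqm hcm hQ hb hr ?_
    have hcm' : c % m ∈ A := by rwa [Nat.mod_eq_of_lt hcm]
    have h2 := (hAi c).2 hcm'
    rw [hm]
    refine Nat.Coprime.prod_right fun p hp => ?_
    rw [Nat.coprime_comm, Nat.Prime.coprime_iff_not_dvd (hS p hp).1]
    intro h3
    obtain ⟨i, hi⟩ := h2 p hp
    apply hd0 p hp i
    have h4 : (p : ℤ) ∣ ((c + h i : ℕ) : ℤ) - ((c + h0 : ℕ) : ℤ) :=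
      dvd_sub (Int.natCast_dvd_natCast.2 hi) (Int.natCast_dvd_natCast.2 h3)
    have h5 : ((c + h i : ℕ) : ℤ) - ((c + h0 : ℕ) : ℤ) = (h i : ℤ) - h0 := by
      push_cast
      ring
    rwa [h5] at h4
  have hsplit : ∑ N ∈ T.filter (fun N => N % W = b % W ∧ N % q = r % q ∧ ∀ p ∈ S, ∃ i, p ∣ N + h i),
      ω N = ∑ c ∈ A, ∑ N ∈ T.filter (fun N => N % W = b % W ∧ N % q = r % q ∧ N % m = c), ω N := by
    have e1 : T.filter (fun N => N % W = b % W ∧ N % q = r % q ∧ ∀ p ∈ S, ∃ i, p ∣ N + h i) =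
        (T.filter (fun N => N % W = b % W ∧ N % q = r % q)).filter (fun N => N % m ∈ A) := by
      rw [Finset.filter_filter]
      apply Finset.filter_congr
      intro N _
      rw [← hAi N]
      tauto
    rw [e1]
    have e2 := Finset.sum_fiberwise_of_maps_to
      (s := (T.filter (fun N => N % W = b % W ∧ N % q = r % q)).filter (fun N => N % m ∈ A))
      (t := A) (g := fun N => N % m) (f := ω) (fun N hN => (Finset.mem_filter.1 hN).2)
    rw [← e2]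
    refine Finset.sum_congr rfl fun c hc => ?_
    rw [Finset.filter_filter, Finset.filter_filter]
    refine Finset.sum_congr (Finset.filter_congr fun N _ => ?_) fun _ _ => rfl
    constructor
    · rintro ⟨⟨a1, a2⟩, a3, a4⟩
      exact ⟨a1, a2, a4⟩
    · rintro ⟨a1, a2, a3⟩
      exact ⟨⟨a1, a2⟩, a3 ▸ hc, a3⟩
  rw [hsplit]
  have e3 : (Fintype.card I : ℝ) ^ S.card * (X / (W.totient * q.totient * m.totient)) =
      ∑ c ∈ A, X / (W.totient * q.totient * m.totient) := by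
    rw [Finset.sum_const, nsmul_eq_mul, hAc]
    push_cast
    ring
  rw [e3, ← Finset.sum_sub_distrib]
  refine (Finset.abs_sum_le_sum_abs _ _).trans ((Finset.sum_le_sum hone).trans (le_of_eq ?_))
  rw [Finset.sum_const, nsmul_eq_mul, hAc]
  push_cast
  ring

end Pool.Agent.H14.L2
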