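import Pool.Agent.H14.L2.Up
import Pool.Agent.H21.BV.BV2
import Pool.Agent.H21.SH.Lo

/-!
[H14 L2 WT]  The primes `N + h0`, `N ∈ Win x`, with the weight `vp J x (N + h0)`: distribution in residue classes
from the Bombieri-Vinogradov theorem `bv2`.
-/

namespace Pool.Agent.H14.L2

open Finset Filter Pool.Agent.H21.MT

/-- the integers of the window with `N + h0` prime -/
noncomputable def Tp (x : ℝ) (h0 : ℕ) : Finset ℕ := (Win x).filter (fun N => (N + h0).Prime)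

theorem vp_nonneg (J : ℕ) (x : ℝ) (p : ℕ) : 0 ≤ vp J x p := by
  unfold vp
  have h1 : 0 ≤ Real.log (p : ℝ) := Real.log_natCast_nonneg p
  have h2 := (gw_pos x p).le
  positivity

theorem vp_out (J : ℕ) : ∀ᶠ x : ℝ in atTop,
    ∑ p ∈ (Wp x).filter (fun p : ℕ => (p : ℝ) ≤ 2 * Real.sqrt x ∨ x ^ 2 < p), vp J x p ≤ 1 := by
  have e4 : ∀ᶠ x : ℝ in atTop, 3 * Real.log x ≤ x := by
    have h1 := Real.isLittleO_log_id_atTop.def (c := 1 / 3) (by norm_num)
    filter_upwards [h1, eventually_ge_atTop 1] with x hx hx1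
    rw [Real.norm_of_nonneg (Real.log_nonneg hx1), id, Real.norm_of_nonneg (by linarith)] at hx
    linarith
  filter_upwards [exp_log_sq (J + 4), gw_tiny, e4, eventually_ge_atTop 1] with x h1 h3 h4 hx1
  have hx0 : 0 < x := by linarith
  have hb : ∀ p ∈ (Wp x).filter (fun p : ℕ => (p : ℝ) ≤ 2 * Real.sqrt x ∨ x ^ 2 < p),
      vp J x p ≤ x ^ (J + 1) * Real.exp (-(Real.log x) ^ 2 / 10) := by
    intro p hp
    rw [Finset.mem_filter, Wp, Finset.mem_filter, Finset.mem_Icc] at hp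
    obtain ⟨⟨⟨hp1, hp2⟩, hpp⟩, hpt⟩ := hp
    have hpx : (p : ℝ) ≤ x ^ 3 := (Nat.le_floor_iff (by positivity)).1 hp2
    have hp1' : (1 : ℝ) ≤ p := by exact_mod_cast hp1
    have hlog : Real.log p ≤ x := by
      refine (Real.log_le_log (by linarith) hpx).trans ?_
      rw [Real.log_pow]
      push_cast
      exact h4
    have hlog0 : 0 ≤ Real.log p := Real.log_nonneg hp1'
    unfold vp
    exact mul_le_mul (pow_le_pow_left₀ hlog0 hlog _) (h3 p hp1 hpt) (gw_pos x p).le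
      (by positivity)
  refine (Finset.sum_le_card_nsmul _ _ _ hb).trans ?_
  rw [nsmul_eq_mul]
  have hcard : (((Wp x).filter (fun p : ℕ => (p : ℝ) ≤ 2 * Real.sqrt x ∨ x ^ 2 < p)).card : ℝ) ≤
      x ^ 3 := by
    have hc : ((Wp x).filter (fun p : ℕ => (p : ℝ) ≤ 2 * Real.sqrt x ∨ x ^ 2 < p)).card ≤
        (Icc 1 ⌊x ^ 3⌋₊).card :=
      Finset.card_le_card ((Finset.filter_subset _ _).trans (Finset.filter_subset _ _))
    rw [Nat.card_Icc, Nat.add_sub_cancel] at hc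
    calc (((Wp x).filter (fun p : ℕ => (p : ℝ) ≤ 2 * Real.sqrt x ∨ x ^ 2 < p)).card : ℝ)
        ≤ (⌊x ^ 3⌋₊ : ℝ) := by exact_mod_cast hc
      _ ≤ x ^ 3 := Nat.floor_le (by positivity)
  calc (((Wp x).filter (fun p : ℕ => (p : ℝ) ≤ 2 * Real.sqrt x ∨ x ^ 2 < p)).card : ℝ) *
        (x ^ (J + 1) * Real.exp (-(Real.log x) ^ 2 / 10))
      ≤ x ^ 3 * (x ^ (J + 1) * Real.exp (-(Real.log x) ^ 2 / 10)) :=
        mul_le_mul_of_nonneg_right hcard (by positivity)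
    _ = x ^ (J + 4) * Real.exp (-(Real.log x) ^ 2 / 10) := by ring
    _ ≤ 1 := h1

theorem vp_shift (J h0 : ℕ) : ∀ᶠ x : ℝ in atTop, ∀ q c : ℕ, 0 < q →
    |∑ N ∈ (Tp x h0).filter (fun N => N % q = c % q), vp J x (N + h0) -
      ∑ p ∈ (Wp x).filter (fun p : ℕ => (q : ℤ) ∣ (p : ℤ) - ((c + h0 : ℕ) : ℤ)), vp J x p| ≤ 1 := by
  have e5 : ∀ᶠ x : ℝ in atTop, (h0 : ℝ) ≤ Real.sqrt x :=
    Real.tendsto_sqrt_atTop.eventually_ge_atTop _
  filter_upwards [vp_out J, e5, eventually_ge_atTop 2] with x h1 h5 hx2 q c hq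
  have hx0 : 0 < x := by linarith
  have hx1 : 1 ≤ x := by linarith
  have hmod : ∀ N : ℕ, (q : ℤ) ∣ ((N + h0 : ℕ) : ℤ) - ((c + h0 : ℕ) : ℤ) ↔ N % q = c % q := by
    intro N
    have h7 : ((N + h0 : ℕ) : ℤ) - ((c + h0 : ℕ) : ℤ) = (N : ℤ) - c := by push_cast; ring
    rw [h7]
    constructor
    · intro h8
      have h9 : (c : ℤ) ≡ (N : ℤ) [ZMOD q] := (Int.modEq_iff_dvd).2 h8
      exact ((Int.natCast_modEq_iff.1 h9).symm)
    · intro h8
      have h9 : (c : ℤ) ≡ (N : ℤ) [ZMOD q] := Int.natCast_modEq_iff.2 (Eq.symm h8 : c ≡ N [MOD q])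
      exact (Int.modEq_iff_dvd).1 h9
  set A := (Tp x h0).filter (fun N => N % q = c % q) with hA
  set G := (Wp x).filter (fun p : ℕ => (q : ℤ) ∣ (p : ℤ) - ((c + h0 : ℕ) : ℤ)) with hG
  have hs : Real.sqrt x * Real.sqrt x = x := Real.mul_self_sqrt hx0.le
  have hs1 : 1 ≤ Real.sqrt x := by
    rw [Real.one_le_sqrt]
    exact hx1
  have e1 : ∑ N ∈ A, vp J x (N + h0) = ∑ p ∈ A.image (fun N => N + h0), vp J x p :=
    (Finset.sum_image (f := fun p => vp J x p) fun a _ b _ hab =>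
      Nat.add_right_cancel hab).symm
  have hsub : A.image (fun N => N + h0) ⊆ G := by
    intro p hp
    obtain ⟨N, hN, rfl⟩ := Finset.mem_image.1 hp
    rw [hA, Finset.mem_filter, Tp, Finset.mem_filter, Win, Finset.mem_Ioc] at hN
    obtain ⟨⟨⟨hN1, hN2⟩, hNp⟩, hNq⟩ := hN
    rw [hG, Finset.mem_filter, Wp, Finset.mem_filter, Finset.mem_Icc]
    refine ⟨⟨⟨hNp.one_le, ?_⟩, hNp⟩, (hmod N).2 hNq⟩
    have h6 : (N : ℝ) ≤ x ^ 2 := (Nat.le_floor_iff (by positivity)).1 hN2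
    rw [Nat.le_floor_iff (by positivity)]
    push_cast
    have h7 : x ^ 2 + x ≤ x ^ 3 := by nlinarith [mul_pos hx0 hx0]
    have h8 : Real.sqrt x ≤ x := by nlinarith
    linarith
  have hmid : ∀ p ∈ G, p ∉ A.image (fun N => N + h0) →
      p ∈ (Wp x).filter (fun p : ℕ => (p : ℝ) ≤ 2 * Real.sqrt x ∨ x ^ 2 < p) := by
    intro p hp hpn
    rw [hG, Finset.mem_filter] at hp
    rw [Finset.mem_filter]
    refine ⟨hp.1, ?_⟩
    by_contra hcon
    push Not at hcon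
    apply hpn
    have hle : (h0 : ℝ) ≤ p := by linarith [hcon.1]
    have hle' : h0 ≤ p := by exact_mod_cast hle
    rw [Finset.mem_image]
    refine ⟨p - h0, ?_, Nat.sub_add_cancel hle'⟩
    have hc : ((p - h0 : ℕ) : ℝ) = p - h0 := by push_cast [Nat.cast_sub hle']; ring
    have hpp : p.Prime := by
      have := hp.1
      rw [Wp, Finset.mem_filter] at this
      exact this.2
    rw [hA, Finset.mem_filter, Tp, Finset.mem_filter, Win, Finset.mem_Ioc,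
      Nat.sub_add_cancel hle']
    refine ⟨⟨⟨?_, ?_⟩, hpp⟩, ?_⟩
    · rw [Nat.floor_lt (Real.sqrt_nonneg x), hc]
      linarith [hcon.1]
    · rw [Nat.le_floor_iff (by positivity), hc]
      have : (0 : ℝ) ≤ h0 := Nat.cast_nonneg _
      linarith [hcon.2]
    · rw [← hmod, Nat.sub_add_cancel hle']
      exact hp.2
  rw [e1, abs_sub_comm, ← Finset.sum_sdiff hsub, add_sub_cancel_right,
    abs_of_nonneg (Finset.sum_nonneg fun p _ => vp_nonneg J x p)]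
  refine le_trans (Finset.sum_le_sum_of_subset_of_nonneg ?_ fun p _ _ => vp_nonneg J x p) h1
  intro p hp
  rw [Finset.mem_sdiff] at hp
  exact hmid p hp.1 hp.2

theorem up_vp (κ : ℝ) (hκ : 0 < κ) (hκ1 : κ ≤ 1 / 4) (A : ℕ) : ∃ J : ℕ, ∀ h0 : ℕ,
    ∀ᶠ x : ℝ in atTop, ∃ E : ℕ → ℝ, (∀ q, 0 ≤ E q) ∧
    UP (Tp x h0) (fun N => vp J x (N + h0)) h0 (MM J x) (x ^ (1 / 2 - κ)) E ∧
    (∀ q : ℕ, 1 ≤ q → (q : ℝ) ≤ x ^ (1 / 2 - κ) →
      E q ≤ 2 * x * (Real.log x) ^ (J + 2) / q.totient) ∧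
    ∑ q ∈ Icc 1 ⌊x ^ (1 / 2 - κ)⌋₊, E q ≤ 2 * x * (Real.log x) ^ J / (Real.log x) ^ A := by
  obtain ⟨J, hJ⟩ := Pool.Agent.H21.BV.bv2 κ hκ hκ1 A
  refine ⟨J, fun h0 => ?_⟩
  have hLA : ∀ᶠ x : ℝ in atTop, (Real.log x) ^ A ≤ x ^ (1 / 2 : ℝ) := by
    have h := isLittleO_log_rpow_rpow_atTop (s := 1 / 2) (A : ℝ) (by norm_num : (0 : ℝ) < 1 / 2)
    filter_upwards [h.bound one_pos, eventually_ge_atTop (1 : ℝ)] with x hx hx1
    have hL : 0 ≤ Real.log x := Real.log_nonneg hx1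
    rw [Real.rpow_natCast, Real.norm_of_nonneg (by positivity),
      Real.norm_of_nonneg (Real.rpow_nonneg (by linarith) _), one_mul] at hx
    exact hx
  filter_upwards [hJ, vp_shift J h0, hLA, eventually_ge_atTop (3 : ℝ)] with x hx hsh hla hx3
  obtain ⟨E, hE0, hE1, hE2, hE3⟩ := hx
  have hx0 : 0 < x := by linarith
  have hx1 : 1 ≤ x := by linarith
  have hL : 1 ≤ Real.log x := by
    rw [Real.le_log_iff_exp_le (by linarith)]
    linarith [Real.exp_one_lt_d9]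
  have hQ : x ^ (1 / 2 - κ) ≤ x ^ (1 / 2 : ℝ) := Real.rpow_le_rpow_of_exponent_le hx1 (by linarith)
  have hhalf : x ^ (1 / 2 : ℝ) * x ^ (1 / 2 : ℝ) = x := by
    rw [← Real.rpow_add hx0]
    norm_num
  have hh1 : 1 ≤ x ^ (1 / 2 : ℝ) := Real.one_le_rpow hx1 (by norm_num)
  refine ⟨fun q => E q + 1, fun q => by have := hE0 q; linarith, ?_, ?_, ?_⟩
  · intro q c hq hqQ hcop
    have h1 := hE1 q hq hqQ ((c + h0 : ℕ) : ℤ) (by
      exact Nat.isCoprime_iff_coprime.2 hcop)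
    have h2 := hsh q c hq
    have h3 := abs_add_le (∑ N ∈ (Tp x h0).filter (fun N => N % q = c % q), vp J x (N + h0) -
      ∑ p ∈ (Wp x).filter (fun p : ℕ => (q : ℤ) ∣ (p : ℤ) - ((c + h0 : ℕ) : ℤ)), vp J x p)
      (∑ p ∈ (Wp x).filter (fun p : ℕ => (q : ℤ) ∣ (p : ℤ) - ((c + h0 : ℕ) : ℤ)), vp J x p -
        MM J x / q.totient)
    rw [sub_add_sub_cancel] at h3
    linarith
  · intro q hq hqQ
    have h1 := hE2 q hq hqQ
    have hphi : (0 : ℝ) < q.totient := by exact_mod_cast Nat.totient_pos.2 hq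
    have hphi2 : (q.totient : ℝ) ≤ x := by
      have h2 : (q.totient : ℝ) ≤ q := by exact_mod_cast Nat.totient_le q
      nlinarith
    have hLJ : 1 ≤ (Real.log x) ^ (J + 2) := one_le_pow₀ hL
    have h3 : (1 : ℝ) ≤ x * (Real.log x) ^ (J + 2) / q.totient := by
      rw [le_div_iff₀ hphi]
      nlinarith
    have h4 : 2 * x * (Real.log x) ^ (J + 2) / q.totient =
        x * (Real.log x) ^ (J + 2) / q.totient + x * (Real.log x) ^ (J + 2) / q.totient := by ring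
    rw [h4]
    linarith
  · rw [Finset.sum_add_distrib, Finset.sum_const, nsmul_eq_mul, mul_one, Nat.card_Icc,
      Nat.add_sub_cancel]
    have h1 : (⌊x ^ (1 / 2 - κ)⌋₊ : ℝ) ≤ x ^ (1 / 2 : ℝ) :=
      (Nat.floor_le (Real.rpow_nonneg hx0.le _)).trans hQ
    have hLA0 : 0 < (Real.log x) ^ A := by positivity
    have h2 : x ^ (1 / 2 : ℝ) ≤ x * (Real.log x) ^ J / (Real.log x) ^ A := by
      rw [le_div_iff₀ hLA0]
      have h3 : 1 ≤ (Real.log x) ^ J := one_le_pow₀ hL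
      calc x ^ (1 / 2 : ℝ) * (Real.log x) ^ A ≤ x ^ (1 / 2 : ℝ) * x ^ (1 / 2 : ℝ) :=
            mul_le_mul_of_nonneg_left hla (by linarith)
        _ = x * 1 := by rw [hhalf, mul_one]
        _ ≤ x * (Real.log x) ^ J := mul_le_mul_of_nonneg_left h3 hx0.le
    have h4 : 2 * x * (Real.log x) ^ J / (Real.log x) ^ A =
        x * (Real.log x) ^ J / (Real.log x) ^ A + x * (Real.log x) ^ J / (Real.log x) ^ A := by ring
    rw [h4]
    linarith

end Pool.Agent.H14.L2
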